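import Mathlib

/-!
Zeroth-order curvature term of the Bochner (Lichnerowicz) formula on symmetric `p`-tensors under
`k`-nonnegative sectional curvature, pointwise form.

Proof idea.  Let `f v = φ (v, ..., v)`.  The operator `K` is self-adjoint, preserves symmetric
tensors and commutes with contraction, so it is enough to treat a trace-free eigenvector.  At a
point `v` of the unit sphere where `|f|` is maximal one has `K f (v) = ∑ sec(v, eᵢ) wᵢ` with
`wᵢ` minus the second derivative of `f` along the great circle through `v` and `eᵢ`.  Maximality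
gives `0 ≤ wᵢ`, the Markov-Bernstein inequality gives `wᵢ ≤ p ^ 2 f v`, and
`∑ wᵢ = p (n + p - 2) f v`.
-/

open Finset Function

namespace Pool.Agent.Results.MP_b296c2_gt.Pointwise

variable {E : Type*} [NormedAddCommGroup E] [InnerProductSpace ℝ E] {p : ℕ}

/-- An algebraic curvature tensor `R (X, Y) Z` on a real inner product space, with the sign
convention `sec (X, Y) = ⟨R (X, Y) Y, X⟩`: antisymmetric in `X, Y`, skew-adjoint as an
endomorphism `R (X, Y)`, and satisfying the first Bianchi identity. -/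
structure IsCurvatureTensor (R : E →ₗ[ℝ] E →ₗ[ℝ] E →ₗ[ℝ] E) : Prop where
  antisymm : ∀ X Y Z, R X Y Z = - R Y X Z
  skew : ∀ X Y Z W, inner ℝ (R X Y Z) W = - inner ℝ Z (R X Y W)
  bianchi : ∀ X Y Z, R X Y Z + R Y Z X + R Z X Y = 0

/-- The action of an endomorphism `A` as a derivation on a covariant `p`-tensor:
`(A φ) (Z₁, ..., Zₚ) = - ∑_b φ (Z₁, ..., A Z_b, ..., Zₚ)`. -/
def act (A : E → E) (φ : (Fin p → E) → ℝ) (Z : Fin p → E) : ℝ :=
  - ∑ b, φ (update Z b (A (Z b)))

/-- The zeroth-order term of the Bochner formula in the orthonormal basis `e`: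
`(K φ) (X₁, ..., Xₚ) = ∑_a ∑_i (R (e_i, X_a) φ) (X₁, ..., X_{a-1}, e_i, X_{a+1}, ..., Xₚ)`. -/
def bochnerTerm {n : ℕ} (R : E →ₗ[ℝ] E →ₗ[ℝ] E →ₗ[ℝ] E) (e : Fin n → E)
    (φ : (Fin p → E) → ℝ) (X : Fin p → E) : ℝ :=
  ∑ a, ∑ i, act (R (e i) (X a)) φ (update X a (e i))


/-- Real-valued `p`-linear maps on `E` (covariant `p`-tensors). -/
abbrev T (p : ℕ) (E : Type*) [NormedAddCommGroup E] [InnerProductSpace ℝ E] :=
  MultilinearMap ℝ (fun _ : Fin p => E) ℝ

/-- A covariant `p`-tensor is symmetric if it is invariant under permutations of its arguments. -/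
def IsSymm (φ : T p E) : Prop := ∀ (σ : Equiv.Perm (Fin p)) (X : Fin p → E), φ (X ∘ σ) = φ X

/-- Sectional curvature of the plane spanned by two orthonormal vectors `X, Y`. -/
noncomputable def sec (R : E →ₗ[ℝ] E →ₗ[ℝ] E →ₗ[ℝ] E) (X Y : E) : ℝ :=
  inner ℝ (R X Y Y) X

/-- `k`-nonnegative sectional curvature in dimension `n`: for every orthonormal basis `b`, any `k`
of the numbers `sec (b i) (b j)`, `i < j`, have nonnegative sum (equivalently, the `k` smallest
ones have nonnegative sum). -/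
def KNonnegSec (n : ℕ) (R : E →ₗ[ℝ] E →ₗ[ℝ] E →ₗ[ℝ] E) (k : ℕ) : Prop :=
  ∀ (b : OrthonormalBasis (Fin n) ℝ E) (S : Finset (Fin n × Fin n)),
    (∀ q ∈ S, q.1 < q.2) → S.card = k → 0 ≤ ∑ q ∈ S, sec R (b q.1) (b q.2)

theorem IsCurvatureTensor.pair {R : E →ₗ[ℝ] E →ₗ[ℝ] E →ₗ[ℝ] E} (h : IsCurvatureTensor R)
    (X Y Z W : E) : inner ℝ (R X Y Z) W = inner ℝ (R Z W X) Y := by
  have b1 := congrArg (fun t => inner ℝ t W) (h.bianchi X Y Z)
  have b2 := congrArg (fun t => inner ℝ t X) (h.bianchi Y Z W)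
  have b3 := congrArg (fun t => inner ℝ t Y) (h.bianchi Z W X)
  have b4 := congrArg (fun t => inner ℝ t Z) (h.bianchi W X Y)
  simp only [inner_add_left, inner_zero_left] at b1 b2 b3 b4
  have s := fun A B C D => h.skew A B C D
  have a : ∀ A B C D, inner ℝ (R A B C) D = - inner ℝ (R B A C) D := fun A B C D => by
    rw [h.antisymm A B C, inner_neg_left]
  have s' : ∀ A B C D, inner ℝ (R A B C) D = - inner ℝ (R A B D) C := fun A B C D => by
    rw [h.skew A B C D, real_inner_comm]
  have e1 := s' Y Z X W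
  have e2 := s' Z X Y W
  have e3 := a X Z Y W
  have e4 := s' X Y W Z
  have e5 := s' W X Y Z
  have e6 := s' Z W Y X
  have e7 := s' Y Z W X
  have e8 := a Y W Z X
  have e9 := s' W Y Z X
  have e10 := s' X Z W Y
  have e11 := s' Y W X Z
  have e12 := a X Z W Y
  have e13 := s' Z X W Y
  have e14 := a Z X W Y
  linarith [s' X Y Z W, s' Z W X Y, s' W X Z Y, s' W Y X Z, a W Y X Z, a W Y Z X]

/-- Sanity check: the curvature tensor of constant sectional curvature one,
`R (X, Y) Z = ⟨Y, Z⟩ X - ⟨X, Z⟩ Y`. -/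
noncomputable def constCurv : E →ₗ[ℝ] E →ₗ[ℝ] E →ₗ[ℝ] E :=
  LinearMap.mk₂ ℝ (fun X Y => (innerₛₗ ℝ Y).smulRight X - (innerₛₗ ℝ X).smulRight Y)
    (fun X X' Y => LinearMap.ext fun Z => by simp; module)
    (fun c X Y => LinearMap.ext fun Z => by simp; module)
    (fun X Y Y' => LinearMap.ext fun Z => by simp; module)
    (fun c X Y => LinearMap.ext fun Z => by simp; module)

theorem constCurv_apply (X Y Z : E) :
    constCurv X Y Z = inner ℝ Y Z • X - inner ℝ X Z • Y := by
  simp [constCurv]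

theorem constCurv_isCurvatureTensor : IsCurvatureTensor (constCurv (E := E)) where
  antisymm X Y Z := by rw [constCurv_apply, constCurv_apply]; abel
  skew X Y Z W := by
    rw [constCurv_apply, constCurv_apply]
    simp only [inner_sub_left, inner_sub_right, inner_smul_left, inner_smul_right]
    rw [real_inner_comm Z Y, real_inner_comm Z X]
    simp
    ring
  bianchi X Y Z := by
    rw [constCurv_apply, constCurv_apply, constCurv_apply, real_inner_comm Y X,
      real_inner_comm Z X, real_inner_comm Z Y]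
    abel

theorem sec_constCurv {X Y : E} (hX : ‖X‖ = 1) (hY : ‖Y‖ = 1) (hXY : inner ℝ X Y = 0) :
    sec constCurv X Y = 1 := by
  rw [sec, constCurv_apply, inner_sub_left, inner_smul_left, inner_smul_left,
    real_inner_self_eq_norm_sq, real_inner_self_eq_norm_sq, hX, hY, hXY]
  simp

/-- derivation action of `A`, as a linear map on `p`-tensors. -/
noncomputable def rho (A : E →ₗ[ℝ] E) : T p E →ₗ[ℝ] T p E where
  toFun φ := - ∑ b, φ.compLinearMap (update (fun _ => LinearMap.id) b A)
  map_add' φ ψ := by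
    ext X
    simp [Finset.sum_add_distrib]
    ring
  map_smul' c φ := by
    ext X
    simp [Finset.mul_sum]

theorem rho_apply (A : E →ₗ[ℝ] E) (φ : T p E) (Z : Fin p → E) :
    rho A φ Z = - ∑ b, φ (update Z b (A (Z b))) := by
  simp only [rho, LinearMap.coe_mk, AddHom.coe_mk, neg_apply,
    _root_.sum_apply, MultilinearMap.compLinearMap_apply]
  congr 1
  apply Finset.sum_congr rfl
  intro b _
  congr 1
  ext i
  by_cases h : i = b
  · subst h; simp
  · simp [h]

theorem rho_add (A B : E →ₗ[ℝ] E) (φ : T p E) : rho (A + B) φ = rho A φ + rho B φ := by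
  ext Z
  simp only [add_apply, rho_apply, LinearMap.add_apply,
    MultilinearMap.map_update_add, Finset.sum_add_distrib]
  ring

theorem rho_smul (c : ℝ) (A : E →ₗ[ℝ] E) (φ : T p E) : rho (c • A) φ = c • rho A φ := by
  ext Z
  simp only [smul_apply, rho_apply, LinearMap.smul_apply,
    MultilinearMap.map_update_smul, smul_eq_mul, Finset.mul_sum, mul_neg]

theorem rho_zero (φ : T p E) : rho (0 : E →ₗ[ℝ] E) φ = 0 := by
  have := rho_smul 0 (0 : E →ₗ[ℝ] E) φ
  simpa using this

theorem rho_sum {ι : Type*} (s : Finset ι) (A : ι → E →ₗ[ℝ] E) (φ : T p E) :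
    rho (∑ i ∈ s, A i) φ = ∑ i ∈ s, rho (A i) φ := by
  classical
  induction s using Finset.induction_on with
  | empty => simp [rho_zero]
  | insert a s ha ih => rw [Finset.sum_insert ha, rho_add, ih, Finset.sum_insert ha]

theorem IsSymm.rho {φ : T p E} (h : IsSymm φ) (A : E →ₗ[ℝ] E) : IsSymm (rho A φ) := by
  intro σ X
  rw [rho_apply, rho_apply]
  congr 1
  rw [← Equiv.sum_comp σ (fun b => φ (update X b (A (X b))))]
  apply Finset.sum_congr rfl
  intro b _
  rw [← h σ (update X (σ b) (A (X (σ b))))]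
  congr 1
  ext i
  by_cases hi : i = b
  · subst hi; simp
  · have : σ i ≠ σ b := fun hh => hi (σ.injective hh)
    simp [hi, this]

/-- symmetric tensors form a submodule -/
def Sy (p : ℕ) (E : Type*) [NormedAddCommGroup E] [InnerProductSpace ℝ E] :
    Submodule ℝ (T p E) where
  carrier := {φ | IsSymm φ}
  add_mem' := by
    intro a b ha hb σ X
    simp [ha σ X, hb σ X]
  zero_mem' := by
    intro σ X
    simp
  smul_mem' := by
    intro c a ha σ X
    simp [ha σ X]

/-- `ip` -/
noncomputable def ip {n : ℕ} (e : Fin n → E) (φ ψ : T p E) : ℝ :=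
  ∑ I : Fin p → Fin n, φ (e ∘ I) * ψ (e ∘ I)

theorem ip_rho {n : ℕ} (e : OrthonormalBasis (Fin n) ℝ E) (A : E →ₗ[ℝ] E)
    (hA : ∀ x y, inner ℝ (A x) y = - inner ℝ x (A y)) (φ ψ : T p E) :
    ip e (rho A φ) ψ = - ip e φ (rho A ψ) := by
  have key : ∀ (χ : T p E) (I : Fin p → Fin n), rho A χ (e ∘ I) =
      - ∑ b, ∑ m, inner ℝ (e m) (A (e (I b))) * χ (e ∘ (update I b m)) := by
    intro χ I
    rw [rho_apply]
    congr 1
    apply Finset.sum_congr rfl
    intro b _
    have h1 : A ((⇑e ∘ I) b) = ∑ m, inner ℝ (e m) (A (e (I b))) • e m := by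
      simp [e.sum_repr']
    rw [h1, MultilinearMap.map_update_sum]
    apply Finset.sum_congr rfl
    intro m _
    rw [MultilinearMap.map_update_smul, smul_eq_mul]
    congr 2
    ext i
    by_cases hi : i = b
    · subst hi; simp
    · simp [hi]
  simp only [ip, key, neg_mul, mul_neg, Finset.sum_neg_distrib, neg_neg, Finset.sum_mul,
    Finset.mul_sum]
  rw [Finset.sum_comm, ← Finset.sum_neg_distrib]
  conv_rhs => rw [Finset.sum_comm]
  apply Finset.sum_congr rfl
  intro b _
  rw [← Finset.sum_product', ← Finset.sum_product', ← Finset.sum_neg_distrib]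
  refine Finset.sum_bij' (fun q _ => (update q.1 b q.2, q.1 b))
    (fun q _ => (update q.1 b q.2, q.1 b)) ?_ ?_ ?_ ?_ ?_
  · intro a _; simp
  · intro a _; simp
  · intro a _; simp
  · intro a _; simp
  · intro q _
    have h1 := hA (e (q.1 b)) (e q.2)
    rw [real_inner_comm] at h1
    simp only [update_self, update_idem, update_eq_self]
    linear_combination (- φ (⇑e ∘ update q.1 b q.2) * ψ (⇑e ∘ q.1)) * h1


/-- elementary skew endomorphism -/
noncomputable def W {n : ℕ} (e : Fin n → E) (i j : Fin n) : E →ₗ[ℝ] E :=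
  (innerₛₗ ℝ (e j)).smulRight (e i) - (innerₛₗ ℝ (e i)).smulRight (e j)

theorem W_apply {n : ℕ} (e : Fin n → E) (i j : Fin n) (x : E) :
    W e i j x = inner ℝ (e j) x • e i - inner ℝ (e i) x • e j := by
  simp [W]

theorem W_skew {n : ℕ} (e : Fin n → E) (i j : Fin n) (x y : E) :
    inner ℝ (W e i j x) y = - inner ℝ x (W e i j y) := by
  simp only [W_apply, inner_sub_left, inner_sub_right, inner_smul_left, inner_smul_right]
  rw [real_inner_comm x (e i), real_inner_comm x (e j)]
  simp
  ring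

/-- the curvature term as an operator -/
noncomputable def Kop {n : ℕ} (R : E →ₗ[ℝ] E →ₗ[ℝ] E →ₗ[ℝ] E) (e : Fin n → E) :
    T p E →ₗ[ℝ] T p E :=
  (-(1 / 2) : ℝ) • ∑ i, ∑ j, (rho (W e i j)) ∘ₗ (rho (R (e i) (e j)))

theorem Kop_eq {n : ℕ} (R : E →ₗ[ℝ] E →ₗ[ℝ] E →ₗ[ℝ] E) (e : Fin n → E) (φ : T p E) :
    Kop R e φ = (-(1 / 2) : ℝ) • ∑ i, ∑ j, rho (W e i j) (rho (R (e i) (e j)) φ) := by
  simp only [Kop, LinearMap.smul_apply, LinearMap.sum_apply, LinearMap.comp_apply]

theorem rho_W_apply {n : ℕ} (e : Fin n → E) (i j : Fin n) (ψ : T p E) (X : Fin p → E) :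
    rho (W e i j) ψ X = - ∑ a, (inner ℝ (e j) (X a) * ψ (update X a (e i)) -
      inner ℝ (e i) (X a) * ψ (update X a (e j))) := by
  rw [rho_apply]
  congr 1
  apply Finset.sum_congr rfl
  intro a _
  rw [W_apply, MultilinearMap.map_update_sub, MultilinearMap.map_update_smul,
    MultilinearMap.map_update_smul, smul_eq_mul, smul_eq_mul]

theorem act_eq_rho (A : E →ₗ[ℝ] E) (φ : T p E) (Z : Fin p → E) : act A φ Z = rho A φ Z := by
  rw [rho_apply]; rfl

theorem Kop_apply {n : ℕ} {R : E →ₗ[ℝ] E →ₗ[ℝ] E →ₗ[ℝ] E} (hR : IsCurvatureTensor R)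
    (e : OrthonormalBasis (Fin n) ℝ E) (φ : T p E) (X : Fin p → E) :
    Kop R e φ X = bochnerTerm R e φ X := by
  have hanti : ∀ i j, rho (R (e i) (e j)) φ = - rho (R (e j) (e i)) φ := by
    intro i j
    have : R (e i) (e j) = (-1 : ℝ) • R (e j) (e i) :=
      LinearMap.ext fun Z => by rw [LinearMap.smul_apply, hR.antisymm, neg_smul, one_smul]
    rw [this, rho_smul]
    ext X
    simp only [smul_apply, neg_apply, smul_eq_mul]
    ring
  rw [Kop_eq]
  simp only [smul_apply, _root_.sum_apply, rho_W_apply, bochnerTerm]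
  have h1 : ∀ a i, act (R (e i) (X a)) φ (update X a (e i)) =
      ∑ j, inner ℝ (e j) (X a) * rho (R (e i) (e j)) φ (update X a (e i)) := by
    intro a i
    rw [act_eq_rho]
    have : R (e i) (X a) = ∑ j, inner ℝ (e j) (X a) • R (e i) (e j) := by
      conv_lhs => rw [← e.sum_repr' (X a)]
      rw [map_sum]
      simp only [map_smul]
    rw [this, rho_sum]
    simp only [_root_.sum_apply, rho_smul, smul_apply, smul_eq_mul]
  simp only [h1]
  have h2 : ∑ i, ∑ j, ∑ a, (inner ℝ (e i) (X a) * rho (R (e i) (e j)) φ (update X a (e j))) =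
      - ∑ i, ∑ j, ∑ a, (inner ℝ (e j) (X a) * rho (R (e i) (e j)) φ (update X a (e i))) := by
    rw [Finset.sum_comm, ← Finset.sum_neg_distrib]
    apply Finset.sum_congr rfl
    intro i _
    rw [← Finset.sum_neg_distrib]
    apply Finset.sum_congr rfl
    intro j _
    rw [← Finset.sum_neg_distrib]
    apply Finset.sum_congr rfl
    intro a _
    rw [hanti]
    simp
  have h3 : ∑ a, ∑ i, ∑ j, inner ℝ (e j) (X a) * rho (R (e i) (e j)) φ (update X a (e i)) =
      ∑ i, ∑ j, ∑ a, inner ℝ (e j) (X a) * rho (R (e i) (e j)) φ (update X a (e i)) := by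
    rw [Finset.sum_comm]
    apply Finset.sum_congr rfl
    intro i _
    rw [Finset.sum_comm]
  rw [h3]
  simp only [Finset.sum_neg_distrib, Finset.sum_sub_distrib, smul_eq_mul]
  rw [h2]
  ring


section ipsec

variable {n : ℕ}

theorem ip_comm (e : Fin n → E) (φ ψ : T p E) : ip e φ ψ = ip e ψ φ := by
  simp only [ip, mul_comm]

theorem ip_add_left (e : Fin n → E) (φ χ ψ : T p E) :
    ip e (φ + χ) ψ = ip e φ ψ + ip e χ ψ := by
  simp only [ip, add_apply, add_mul, Finset.sum_add_distrib]

theorem ip_smul_left (e : Fin n → E) (c : ℝ) (φ ψ : T p E) :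
    ip e (c • φ) ψ = c * ip e φ ψ := by
  simp only [ip, smul_apply, smul_eq_mul, Finset.mul_sum, mul_assoc]

theorem ip_sum_left {ι : Type*} (s : Finset ι) (e : Fin n → E) (φ : ι → T p E) (ψ : T p E) :
    ip e (∑ i ∈ s, φ i) ψ = ∑ i ∈ s, ip e (φ i) ψ := by
  simp only [ip, _root_.sum_apply, Finset.sum_mul]
  rw [Finset.sum_comm]

theorem R_eq_sum_W {R : E →ₗ[ℝ] E →ₗ[ℝ] E →ₗ[ℝ] E} (hR : IsCurvatureTensor R)
    (e : OrthonormalBasis (Fin n) ℝ E) (x y : E) :
    R x y = (1 / 2 : ℝ) • ∑ k, ∑ l, inner ℝ (R x y (e l)) (e k) • W e k l := by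
  refine LinearMap.ext fun z => ?_
  simp only [LinearMap.smul_apply, LinearMap.sum_apply, W_apply]
  have h1 : ∑ k, ∑ l, inner ℝ (R x y (e l)) (e k) • (inner ℝ (e l) z • e k) = R x y z := by
    have : ∀ k, ∑ l, inner ℝ (R x y (e l)) (e k) • (inner ℝ (e l) z • e k) =
        inner ℝ (e k) (R x y z) • e k := by
      intro k
      conv_rhs => rw [← e.sum_repr' z]
      simp only [map_sum, map_smul, inner_sum, inner_smul_right, Finset.sum_smul, smul_smul]
      apply Finset.sum_congr rfl
      intro l _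
      rw [real_inner_comm (e k), mul_comm]
    simp only [this]
    exact e.sum_repr' _
  have h2 : ∑ k, ∑ l, inner ℝ (R x y (e l)) (e k) • (inner ℝ (e k) z • e l) = - R x y z := by
    rw [Finset.sum_comm, ← h1, ← Finset.sum_neg_distrib]
    apply Finset.sum_congr rfl
    intro k _
    rw [← Finset.sum_neg_distrib]
    apply Finset.sum_congr rfl
    intro l _
    rw [hR.skew, real_inner_comm (e k) , neg_smul, real_inner_comm]
  simp only [smul_sub, Finset.sum_sub_distrib]
  rw [h1, h2]
  module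

theorem ip_Kop_left {R : E →ₗ[ℝ] E →ₗ[ℝ] E →ₗ[ℝ] E} (hR : IsCurvatureTensor R)
    (e : OrthonormalBasis (Fin n) ℝ E) (φ ψ : T p E) :
    ip e (Kop R e φ) ψ = (1 / 4) * ∑ i, ∑ j, ∑ k, ∑ l, inner ℝ (R (e i) (e j) (e l)) (e k) *
      ip e (rho (W e k l) φ) (rho (W e i j) ψ) := by
  rw [Kop_eq, ip_smul_left, ip_sum_left]
  simp only [ip_sum_left]
  rw [Finset.mul_sum, Finset.mul_sum]
  apply Finset.sum_congr rfl
  intro i _
  rw [Finset.mul_sum, Finset.mul_sum]
  apply Finset.sum_congr rfl
  intro j _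
  rw [ip_rho e _ (W_skew _ _ _)]
  conv_lhs => rw [R_eq_sum_W hR e (e i) (e j)]
  rw [rho_smul, rho_sum]
  simp only [rho_sum, rho_smul, ip_smul_left, ip_sum_left]
  ring

theorem ip_Kop_symm {R : E →ₗ[ℝ] E →ₗ[ℝ] E →ₗ[ℝ] E} (hR : IsCurvatureTensor R)
    (e : OrthonormalBasis (Fin n) ℝ E) (φ ψ : T p E) :
    ip e (Kop R e φ) ψ = ip e φ (Kop R e ψ) := by
  rw [ip_comm e φ, ip_Kop_left hR, ip_Kop_left hR]
  congr 1
  have h : ∀ (F : Fin n → Fin n → Fin n → Fin n → ℝ), ∑ i, ∑ j, ∑ k, ∑ l, F i j k l =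
      ∑ i, ∑ j, ∑ k, ∑ l, F k l i j := by
    intro F
    calc ∑ i, ∑ j, ∑ k, ∑ l, F i j k l = ∑ i, ∑ k, ∑ j, ∑ l, F i j k l := by
          apply Finset.sum_congr rfl; intro i _; rw [Finset.sum_comm]
      _ = ∑ k, ∑ i, ∑ j, ∑ l, F i j k l := by rw [Finset.sum_comm]
      _ = ∑ k, ∑ i, ∑ l, ∑ j, F i j k l := by
          apply Finset.sum_congr rfl; intro k _
          apply Finset.sum_congr rfl; intro i _; rw [Finset.sum_comm]
      _ = ∑ k, ∑ l, ∑ i, ∑ j, F i j k l := by
          apply Finset.sum_congr rfl; intro k _; rw [Finset.sum_comm]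
  rw [h]
  apply Finset.sum_congr rfl; intro i _
  apply Finset.sum_congr rfl; intro j _
  apply Finset.sum_congr rfl; intro k _
  apply Finset.sum_congr rfl; intro l _
  rw [ip_comm]
  congr 1
  rw [hR.pair, hR.antisymm, inner_neg_left, hR.skew, neg_neg, real_inner_comm]

end ipsec


section trace

variable {n : ℕ}

/-- contraction of the first two slots -/
noncomputable def tr {q : ℕ} (e : Fin n → E) : T (q + 2) E →ₗ[ℝ] T q E where
  toFun φ := ∑ j, (φ.curryLeft (e j)).curryLeft (e j)
  map_add' φ ψ := by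
    ext X
    simp [Finset.sum_add_distrib]
  map_smul' c φ := by
    ext X
    simp [Finset.mul_sum]

theorem tr_apply {q : ℕ} (e : Fin n → E) (φ : T (q + 2) E) (X : Fin q → E) :
    tr e φ X = ∑ j, φ (Fin.cons (e j) (Fin.cons (e j) X : Fin (q + 1) → E)) := by
  simp [tr]

theorem skew_trace (e : OrthonormalBasis (Fin n) ℝ E) (A : E →ₗ[ℝ] E)
    (hA : ∀ x y, inner ℝ (A x) y = - inner ℝ x (A y)) (B : E → E → ℝ)
    (h1 : ∀ y (c : Fin n → ℝ), B (∑ m, c m • e m) y = ∑ m, c m * B (e m) y)
    (h2 : ∀ y (c : Fin n → ℝ), B y (∑ m, c m • e m) = ∑ m, c m * B y (e m)) :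
    ∑ j, B (A (e j)) (e j) = - ∑ j, B (e j) (A (e j)) := by
  have k1 : ∀ j, B (A (e j)) (e j) = ∑ m, inner ℝ (e m) (A (e j)) * B (e m) (e j) := by
    intro j
    rw [← h1, e.sum_repr']
  have k2 : ∀ j, B (e j) (A (e j)) = ∑ m, inner ℝ (e m) (A (e j)) * B (e j) (e m) := by
    intro j
    rw [← h2, e.sum_repr']
  simp only [k1, k2]
  rw [Finset.sum_comm, ← Finset.sum_neg_distrib]
  apply Finset.sum_congr rfl
  intro m _
  rw [← Finset.sum_neg_distrib]
  apply Finset.sum_congr rfl
  intro j _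
  rw [real_inner_comm, hA]
  ring

theorem tr_rho {q : ℕ} (e : OrthonormalBasis (Fin n) ℝ E) (A : E →ₗ[ℝ] E)
    (hA : ∀ x y, inner ℝ (A x) y = - inner ℝ x (A y)) (φ : T (q + 2) E) :
    tr e (rho A φ) = rho A (tr e φ) := by
  ext X
  rw [tr_apply, rho_apply]
  simp only [rho_apply, tr_apply, Fin.sum_univ_succ, Fin.cons_zero, Fin.cons_succ,
    Fin.update_cons_zero]
  have e1 : ∀ j (w : E), update (Fin.cons (e j) (Fin.cons (e j) X : Fin (q + 1) → E) :
      Fin (q + 2) → E) (Fin.succ 0) w = Fin.cons (e j) (Fin.cons w X : Fin (q + 1) → E) := by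
    intro j w
    rw [← Fin.cons_update, Fin.update_cons_zero]
  have e2 : ∀ j (b : Fin q) (w : E),
      update (Fin.cons (e j) (Fin.cons (e j) X : Fin (q + 1) → E) :
      Fin (q + 2) → E) (Fin.succ (Fin.succ b)) w =
      Fin.cons (e j) (Fin.cons (e j) (update X b w) : Fin (q + 1) → E) := by
    intro j b w
    rw [← Fin.cons_update, ← Fin.cons_update]
  simp only [e1, e2]
  have h := skew_trace e A hA (fun x y => φ (Fin.cons x (Fin.cons y X : Fin (q + 1) → E))) ?_ ?_
  · simp only [neg_add, Finset.sum_add_distrib, Finset.sum_neg_distrib]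
    rw [h, Finset.sum_comm]
    ring
  · intro y c
    have := (φ.map_update_sum (Finset.univ) 0 (fun m => c m • e m)
      (Fin.cons 0 (Fin.cons y X : Fin (q + 1) → E)))
    simpa [MultilinearMap.map_update_smul, Fin.update_cons_zero, MultilinearMap.cons_smul] using this
  · intro y c
    have := ((φ.curryLeft y).map_update_sum (Finset.univ) 0 (fun m => c m • e m)
      (Fin.cons 0 X))
    simp only [Fin.update_cons_zero, MultilinearMap.cons_smul, smul_eq_mul] at this
    simpa only [MultilinearMap.curryLeft_apply] using this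


theorem tr_Kop {q : ℕ} {R : E →ₗ[ℝ] E →ₗ[ℝ] E →ₗ[ℝ] E} (hR : IsCurvatureTensor R)
    (e : OrthonormalBasis (Fin n) ℝ E) (φ : T (q + 2) E) :
    tr e (Kop R e φ) = Kop R e (tr e φ) := by
  rw [Kop_eq, Kop_eq, map_smul, map_sum]
  congr 1
  apply Finset.sum_congr rfl
  intro i _
  rw [map_sum]
  apply Finset.sum_congr rfl
  intro j _
  rw [tr_rho e _ (W_skew _ _ _), tr_rho e _ (fun x y => hR.skew _ _ x y)]

theorem Kop_mem_Sy {R : E →ₗ[ℝ] E →ₗ[ℝ] E →ₗ[ℝ] E}
    (e : Fin n → E) {φ : T p E} (hφ : φ ∈ Sy p E) :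
    Kop R e φ ∈ Sy p E := by
  rw [Kop_eq]
  apply Submodule.smul_mem
  apply Submodule.sum_mem
  intro i _
  apply Submodule.sum_mem
  intro j _
  exact IsSymm.rho (IsSymm.rho hφ _) _

theorem IsSymm.curryLeft {q : ℕ} {φ : T (q + 1) E} (h : IsSymm φ) (x : E) :
    IsSymm (φ.curryLeft x) := by
  intro σ X
  rw [MultilinearMap.curryLeft_apply, MultilinearMap.curryLeft_apply,
    ← h (Equiv.Perm.decomposeFin.symm (0, σ)) (Fin.cons x X)]
  congr 1
  ext i
  refine Fin.cases ?_ (fun j => ?_) i
  · simp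
  · simp [Equiv.Perm.decomposeFin_symm_apply_succ]

theorem tr_mem_Sy {q : ℕ} (e : Fin n → E) {φ : T (q + 2) E} (hφ : φ ∈ Sy (q + 2) E) :
    tr e φ ∈ Sy q E := by
  have : tr e φ = ∑ j, (φ.curryLeft (e j)).curryLeft (e j) := rfl
  rw [this]
  apply Submodule.sum_mem
  intro j _
  exact IsSymm.curryLeft (IsSymm.curryLeft hφ _) _

end trace

section spectral

variable {n : ℕ}

/-- inner product core on tensors -/
@[instance_reducible] noncomputable def ipCore (e : OrthonormalBasis (Fin n) ℝ E) :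
    InnerProductSpace.Core ℝ (T p E) where
  inner φ ψ := ip e φ ψ
  conj_inner_symm φ ψ := by
    change ip e ψ φ = ip e φ ψ
    rw [ip_comm]
  re_inner_nonneg φ := by
    change 0 ≤ ip e φ φ
    exact Finset.sum_nonneg fun I _ => mul_self_nonneg _
  add_left φ ψ χ := ip_add_left _ _ _ _
  smul_left φ ψ c := ip_smul_left _ _ _ _
  definite φ h := by
    change ip e φ φ = 0 at h
    have h2 := (Finset.sum_eq_zero_iff_of_nonneg (fun I _ => mul_self_nonneg _)).1 h
    refine Module.Basis.ext_multilinear (fun _ => e.toBasis) fun I => ?_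
    have := h2 I (Finset.mem_univ _)
    simpa [Function.comp_def] using this

theorem exists_neg_eigenvector (e : OrthonormalBasis (Fin n) ℝ E) (S : Submodule ℝ (T p E))
    (K : T p E →ₗ[ℝ] T p E) (hKS : ∀ φ ∈ S, K φ ∈ S)
    (hsymm : ∀ φ ψ, ip e (K φ) ψ = ip e φ (K ψ)) (φ : T p E) (hφ : φ ∈ S)
    (hneg : ip e (K φ) φ < 0) :
    ∃ ψ ∈ S, ψ ≠ 0 ∧ ∃ c : ℝ, c < 0 ∧ K ψ = c • ψ := by
  let core := ipCore (p := p) e
  let _ : NormedAddCommGroup (T p E) := core.toNormedAddCommGroup
  let _ : InnerProductSpace ℝ (T p E) := InnerProductSpace.ofCore core.toCore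
  have : FiniteDimensional ℝ E := e.toBasis.finiteDimensional_of_finite
  have hin : ∀ a b : T p E, inner ℝ a b = ip e a b := fun _ _ => rfl
  let KS : S →ₗ[ℝ] S := K.restrict hKS
  have hS : KS.IsSymmetric := by
    intro a b
    change inner ℝ (K a) (b : T p E) = inner ℝ (a : T p E) (K b)
    rw [hin, hin, hsymm]
  by_contra hcon
  push Not at hcon
  let b := hS.eigenvectorBasis rfl
  have hb : ∀ i, KS (b i) = (hS.eigenvalues rfl i : ℝ) • b i := fun i =>
    hS.apply_eigenvectorBasis rfl i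
  have hpos : ∀ i, 0 ≤ hS.eigenvalues rfl i := by
    intro i
    by_contra hlt
    push Not at hlt
    have h0 : (b i : T p E) ≠ 0 := by
      intro h
      have : b i = 0 := Subtype.ext h
      have h1 := b.orthonormal.1 i
      rw [this] at h1
      simp at h1
    exact hcon (b i) (b i).2 h0 _ hlt (congrArg Subtype.val (hb i))
  let x : S := ⟨φ, hφ⟩
  have h1 : inner ℝ (KS x) x = ∑ i, hS.eigenvalues rfl i * (inner ℝ (b i) x) ^ 2 := by
    rw [← b.sum_inner_mul_inner]
    apply Finset.sum_congr rfl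
    intro i _
    have h5 : inner ℝ x (KS (b i)) = hS.eigenvalues rfl i * inner ℝ x (b i) := by
      rw [hb]
      exact real_inner_smul_right x (b i) _
    rw [hS x (b i), h5, real_inner_comm (b i) x]
    ring
  have h2 : inner ℝ (KS x) x = ip e (K φ) φ := rfl
  have h3 : 0 ≤ inner ℝ (KS x) x := by
    rw [h1]
    exact Finset.sum_nonneg fun i _ => mul_nonneg (hpos i) (sq_nonneg _)
  linarith

end spectral

/-- coefficients of the restriction to a plane -/
def cf (φ : T p E) (v w : E) (t : Finset (Fin p)) : ℝ :=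
  φ (t.piecewise (fun _ => w) (fun _ => v))

theorem diag_expand (φ : T p E) (x y : ℝ) (v w : E) :
    φ (fun _ => x • v + y • w) = ∑ t : Finset (Fin p), x ^ (p - #t) * y ^ #t * cf φ v w t := by
  have h := φ.map_add_univ (fun _ => y • w) (fun _ => x • v)
  have h0 : ((fun _ => y • w) + (fun _ => x • v) : Fin p → E) = fun _ => x • v + y • w := by
    ext i; simp [add_comm]
  rw [h0] at h
  rw [h]
  apply Finset.sum_congr rfl
  intro t _
  have h1 : (t.piecewise (fun _ => y • w) (fun _ => x • v) : Fin p → E) =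
      fun i => (if i ∈ t then y else x) • (t.piecewise (fun _ => w) (fun _ => v) : Fin p → E) i := by
    ext i
    by_cases hi : i ∈ t <;> simp [hi]
  rw [h1, MultilinearMap.map_smul_univ, smul_eq_mul, Finset.prod_ite]
  simp only [Finset.prod_const, cf]
  have e1 : #(Finset.filter (fun i => i ∈ t) Finset.univ) = #t := by simp
  have e2 : #(Finset.filter (fun i => ¬ i ∈ t) Finset.univ) = p - #t := by
    rw [Finset.filter_not, Finset.card_sdiff_of_subset (Finset.filter_subset _ _)]
    simp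
  rw [e1, e2]
  ring

/-- first derivative of the diagonal -/
def Lf (φ : T p E) (v w : E) : ℝ := ∑ a, φ (update (fun _ => v) a w)

/-- second derivative of the diagonal -/
def Hf (φ : T p E) (v w w' : E) : ℝ :=
  ∑ a, ∑ b ∈ Finset.univ.erase a, φ (update (update (fun _ => v) a w) b w')

theorem sum_card_one (φ : T p E) (v w : E) :
    ∑ t : Finset (Fin p) with #t = 1, cf φ v w t = Lf φ v w := by
  rw [Lf]
  symm
  refine Finset.sum_bij (fun a _ => ({a} : Finset (Fin p))) ?_ ?_ ?_ ?_
  · intro a _; simp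
  · intro a _ b _ h; simpa using h
  · intro t ht
    simp only [Finset.mem_filter, Finset.mem_univ, true_and] at ht
    obtain ⟨a, rfl⟩ := Finset.card_eq_one.1 ht
    exact ⟨a, Finset.mem_univ _, rfl⟩
  · intro a _
    rw [cf, Finset.piecewise_singleton]

theorem cf_pair (φ : T p E) (v w : E) {a b : Fin p} (hab : a ≠ b) :
    cf φ v w {a, b} = φ (update (update (fun _ => v) a w) b w) := by
  rw [cf]
  congr 1
  ext i
  by_cases h1 : i = b
  · subst h1; simp
  · by_cases h2 : i = a
    · subst h2; simp [h1]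
    · simp [h1, h2]

theorem sum_card_two (φ : T p E) (v w : E) :
    2 * ∑ t : Finset (Fin p) with #t = 2, cf φ v w t = Hf φ v w w := by
  have h1 : Hf φ v w w = ∑ x ∈ (Finset.univ : Finset (Fin p)).offDiag, cf φ v w {x.1, x.2} := by
    rw [Hf]
    rw [Finset.sum_sigma']
    refine Finset.sum_bij (fun q _ => (q.1, q.2)) ?_ ?_ ?_ ?_
    · rintro ⟨a, b⟩ h
      simp at h
      simp [Ne.symm h]
    · rintro ⟨a, b⟩ _ ⟨c, d⟩ _ h
      simp only [Prod.mk.injEq] at h
      obtain ⟨rfl, rfl⟩ := h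
      rfl
    · rintro ⟨a, b⟩ h
      simp at h
      exact ⟨⟨a, b⟩, by simp [Ne.symm h], rfl⟩
    · rintro ⟨a, b⟩ h
      simp at h
      exact (cf_pair φ v w (Ne.symm h)).symm
  rw [h1, ← Finset.sum_fiberwise_of_maps_to (t := Finset.univ.filter
    (fun t : Finset (Fin p) => #t = 2)) (g := fun x : Fin p × Fin p => ({x.1, x.2} : Finset (Fin p)))]
  · rw [Finset.mul_sum]
    apply Finset.sum_congr rfl
    intro t ht
    rw [Finset.mem_filter] at ht
    obtain ⟨a, b, hab, rfl⟩ := Finset.card_eq_two.1 ht.2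
    have hf : (Finset.univ : Finset (Fin p)).offDiag.filter
        (fun x => ({x.1, x.2} : Finset (Fin p)) = {a, b}) = {(a, b), (b, a)} := by
      ext ⟨x, y⟩
      simp only [Finset.mem_filter, Finset.mem_offDiag, Finset.mem_univ, true_and,
        Finset.mem_insert, Finset.mem_singleton, Prod.mk.injEq]
      constructor
      · rintro ⟨hxy, h⟩
        have hx : x ∈ ({a, b} : Finset (Fin p)) := by rw [← h]; simp
        have hy : y ∈ ({a, b} : Finset (Fin p)) := by rw [← h]; simp
        simp only [Finset.mem_insert, Finset.mem_singleton] at hx hy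
        rcases hx with rfl | rfl <;> rcases hy with rfl | rfl
        · exact absurd rfl hxy
        · simp
        · simp
        · exact absurd rfl hxy
      · rintro (⟨rfl, rfl⟩ | ⟨rfl, rfl⟩)
        · exact ⟨hab, rfl⟩
        · exact ⟨hab.symm, Finset.pair_comm _ _⟩
    rw [hf, Finset.sum_pair (by simp [hab])]
    simp only
    rw [Finset.pair_comm b a]
    ring
  · rintro ⟨x, y⟩ hxy
    simp only [Finset.mem_offDiag, Finset.mem_univ, true_and] at hxy
    simp [Finset.card_pair hxy]

theorem hasDerivAt_diag (φ : T p E) (v w : E) :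
    HasDerivAt (fun t : ℝ => φ (fun _ => v + t • w)) (Lf φ v w) 0 := by
  have h1 : (fun t : ℝ => φ (fun _ => v + t • w)) =
      fun t : ℝ => ∑ s : Finset (Fin p), t ^ #s * cf φ v w s := by
    ext t
    have := diag_expand φ 1 t v w
    simpa using this
  rw [h1]
  have h2 : Lf φ v w = ∑ s : Finset (Fin p), (if #s = 1 then cf φ v w s else 0) := by
    rw [← sum_card_one, Finset.sum_filter]
  rw [h2]
  apply HasDerivAt.fun_sum
  intro s _
  have h3 := (hasDerivAt_pow #s (0 : ℝ)).mul_const (cf φ v w s)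
  have h4 : ((#s : ℝ) * 0 ^ (#s - 1) * cf φ v w s) = (if #s = 1 then cf φ v w s else 0) := by
    split_ifs with h
    · rw [h]; simp
    · rcases Nat.lt_or_gt_of_ne h with h' | h'
      · have : #s = 0 := by omega
        rw [this]; simp
      · rw [zero_pow (by omega)]; simp
  rw [h4] at h3
  exact h3

/-- weighted sum lemma -/
theorem weighted_nonneg {m k : ℕ} (hk : 1 ≤ k) (hkm : k ≤ m) (s w : Fin m → ℝ) (B : ℝ)
    (h0 : ∀ j, 0 ≤ w j) (h1 : ∀ j, w j ≤ B) (hsum : k * B ≤ ∑ j, w j)
    (hs : ∀ S : Finset (Fin m), S.card = k → 0 ≤ ∑ j ∈ S, s j) :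
    0 ≤ ∑ j, w j * s j := by
  obtain ⟨S, hS, hmin⟩ := Finset.exists_min_image (Finset.powersetCard k (Finset.univ : Finset (Fin m)))
    (fun S => ∑ j ∈ S, s j) (by
      rw [Finset.powersetCard_nonempty]; simpa using hkm)
  rw [Finset.mem_powersetCard] at hS
  have hcard := hS.2
  have hne : S.Nonempty := by
    rw [← Finset.card_pos]; omega
  obtain ⟨i0, hi0, hmax⟩ := Finset.exists_max_image S s hne
  have hex : ∀ j, j ∉ S → s i0 ≤ s j := by
    intro j hj
    have hS' : insert j (S.erase i0) ∈ Finset.powersetCard k (Finset.univ : Finset (Fin m)) := by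
      rw [Finset.mem_powersetCard]
      refine ⟨Finset.subset_univ _, ?_⟩
      rw [Finset.card_insert_of_notMem (by simp [hj]), Finset.card_erase_of_mem hi0, hcard]
      omega
    have := hmin _ hS'
    rw [Finset.sum_insert (by simp [hj])] at this
    have h2 := Finset.add_sum_erase S s hi0
    linarith
  have hτ : 0 ≤ s i0 := by
    have h2 := hs S hcard
    by_contra hneg
    push Not at hneg
    have : ∑ j ∈ S, s j < 0 := by
      apply Finset.sum_neg
      · intro j hj
        exact lt_of_le_of_lt (hmax j hj) hneg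
      · exact hne
    linarith
  have e1 : ∑ j, w j * s j = ∑ j, w j * (s j - s i0) + s i0 * ∑ j, w j := by
    rw [Finset.mul_sum, ← Finset.sum_add_distrib]
    apply Finset.sum_congr rfl
    intro j _
    ring
  have e2 : ∑ j ∈ S, B * (s j - s i0) ≤ ∑ j, w j * (s j - s i0) := by
    rw [← Finset.sum_add_sum_compl S (fun j => w j * (s j - s i0))]
    have h3 : ∑ j ∈ S, B * (s j - s i0) ≤ ∑ j ∈ S, w j * (s j - s i0) := by
      apply Finset.sum_le_sum
      intro j hj
      have := hmax j hj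
      exact mul_le_mul_of_nonpos_right (h1 j) (by linarith)
    have h4 : 0 ≤ ∑ j ∈ Sᶜ, w j * (s j - s i0) := by
      apply Finset.sum_nonneg
      intro j hj
      have := hex j (by simpa using hj)
      exact mul_nonneg (h0 j) (by linarith)
    linarith
  have e3 : ∑ j ∈ S, B * (s j - s i0) = B * ∑ j ∈ S, s j - k * B * s i0 := by
    rw [← Finset.mul_sum, Finset.sum_sub_distrib, Finset.sum_const, hcard]
    simp
    ring
  have hB : 0 ≤ B := le_trans (h0 i0) (h1 i0)
  have e4 : 0 ≤ B * ∑ j ∈ S, s j := mul_nonneg hB (hs S hcard)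
  have e5 : 0 ≤ s i0 * (∑ j, w j - k * B) := mul_nonneg hτ (by linarith)
  nlinarith

/-- Markov's inequality at the endpoint, one-sided form with nonnegativity. -/
theorem markov_endpoint {p : ℕ} {P : Polynomial ℝ} {M : ℝ} (hM : 0 < M) (hdeg : P.degree ≤ p)
    (hbd : ∀ x ∈ Set.Icc (-1 : ℝ) 1, |P.eval x| ≤ M) (h1 : P.eval 1 = M) :
    0 ≤ P.derivative.eval 1 ∧ P.derivative.eval 1 ≤ (p : ℝ) ^ 2 * M := by
  constructor
  · -- factor
    have hroot : (Polynomial.C M - P).IsRoot 1 := by simp [h1]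
    obtain ⟨Q, hQ⟩ := Polynomial.dvd_iff_isRoot.2 hroot
    have hQ1 : P.derivative.eval 1 = - Q.eval 1 := by
      have h2 := congrArg (fun F => (Polynomial.derivative F).eval 1) hQ
      simp at h2
      linarith
    have hle : ∀ x ∈ Set.Ico (-1 : ℝ) 1, Q.eval x ≤ 0 := by
      intro x hx
      have h3 := congrArg (Polynomial.eval x) hQ
      simp at h3
      have h4 := (abs_le.1 (hbd x ⟨hx.1, hx.2.le⟩)).2
      by_contra hcon
      push Not at hcon
      have : (x - 1) * Q.eval x < 0 := mul_neg_of_neg_of_pos (by linarith [hx.2]) hcon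
      linarith
    have hcl : (1 : ℝ) ∈ closure (Set.Ico (-1 : ℝ) 1) := by
      rw [closure_Ico (by norm_num)]
      simp
    have : Q.eval 1 ≤ 0 := by
      have hc : IsClosed {x : ℝ | Q.eval x ≤ 0} := isClosed_le Q.continuous continuous_const
      exact (hc.closure_subset_iff.2 (fun x hx => hle x hx)) hcl
    linarith
  · have key := Polynomial.Chebyshev.eval_iterate_derivative_le_of_forall_abs_le_one
      (n := p) (P := Polynomial.C (1 / M) * P) (k := 1) (x := 1) le_rfl
      (by
        refine (Polynomial.degree_mul_le _ _).trans ?_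
        calc (Polynomial.C (1 / M)).degree + P.degree ≤ 0 + (p : WithBot ℕ) :=
              add_le_add Polynomial.degree_C_le hdeg
          _ = p := by simp)
      (by
        intro x hx
        rw [Polynomial.eval_mul, Polynomial.eval_C, abs_mul, abs_of_pos (by positivity)]
        rw [one_div, inv_mul_le_iff₀ hM, mul_one]
        exact hbd x hx)
    simp only [Function.iterate_one, Polynomial.derivative_C_mul, Polynomial.eval_C,
      Polynomial.Chebyshev.T_derivative_eq_U, Polynomial.eval_mul, Polynomial.eval_intCast,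
      Polynomial.Chebyshev.U_eval_one] at key
    rw [one_div, inv_mul_le_iff₀ hM] at key
    push_cast at key
    linarith [key]


theorem cf_empty (φ : T p E) (v w : E) : cf φ v w ∅ = φ (fun _ => v) := by
  simp [cf]

/-- the restriction to a great circle, symmetrised, as a polynomial in the cosine -/
noncomputable def circ (φ : T p E) (v w : E) : Polynomial ℝ :=
  ∑ t : Finset (Fin p) with Even #t,
    Polynomial.C (cf φ v w t) * (Polynomial.X ^ (p - #t) * (1 - Polynomial.X ^ 2) ^ (#t / 2))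

theorem circ_degree (φ : T p E) (v w : E) : (circ φ v w).degree ≤ p := by
  apply (Polynomial.degree_sum_le _ _).trans
  apply Finset.sup_le
  intro t ht
  rw [Finset.mem_filter] at ht
  have ht1 : #t ≤ p := by simpa using Finset.card_le_univ t
  obtain ⟨m, hm⟩ := ht.2
  have hm2 : #t / 2 = m := by omega
  rw [hm2]
  have hd : (1 - Polynomial.X ^ 2 : Polynomial ℝ).degree ≤ 2 := by
    apply (Polynomial.degree_sub_le _ _).trans
    simp
  calc (Polynomial.C (cf φ v w t) * (Polynomial.X ^ (p - #t) * (1 - Polynomial.X ^ 2) ^ m)).degree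
      ≤ (Polynomial.C (cf φ v w t)).degree +
        (Polynomial.X ^ (p - #t) * (1 - Polynomial.X ^ 2) ^ m : Polynomial ℝ).degree :=
        Polynomial.degree_mul_le _ _
    _ ≤ 0 + ((p - #t : ℕ) + m • 2) := by
        apply add_le_add Polynomial.degree_C_le
        apply (Polynomial.degree_mul_le _ _).trans
        apply add_le_add
        · simp
        · exact (Polynomial.degree_pow_le _ _).trans (nsmul_le_nsmul_right hd _)
    _ = ((p - #t + m * 2 : ℕ) : WithBot ℕ) := by
        rw [zero_add, nsmul_eq_mul]; push_cast; rfl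
    _ ≤ p := by
        norm_cast
        omega

theorem circ_eval (φ : T p E) (v w : E) (x y : ℝ) (hxy : y ^ 2 = 1 - x ^ 2) :
    (circ φ v w).eval x =
      (φ (fun _ => x • v + y • w) + φ (fun _ => x • v + (-y) • w)) / 2 := by
  rw [diag_expand, diag_expand, ← Finset.sum_add_distrib, Finset.sum_div, circ,
    Polynomial.eval_finsetSum, Finset.sum_filter]
  apply Finset.sum_congr rfl
  intro t _
  split_ifs with h
  · obtain ⟨m, hm⟩ := h
    have hm2 : #t / 2 = m := by omega
    simp only [Polynomial.eval_mul, Polynomial.eval_C, Polynomial.eval_pow, Polynomial.eval_X,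
      Polynomial.eval_sub, Polynomial.eval_one, hm2]
    rw [← hxy, ← pow_mul]
    have h3 : (-y) ^ #t = y ^ #t := by
      rw [hm, ← two_mul, pow_mul, pow_mul]; simp
    have h4 : y ^ #t = y ^ (2 * m) := by rw [hm, two_mul]
    rw [h3, h4]
    ring
  · rw [Nat.not_even_iff_odd] at h
    rw [h.neg_pow]
    ring

theorem circ_eval_one (φ : T p E) (v w : E) : (circ φ v w).eval 1 = φ (fun _ => v) := by
  rw [circ_eval φ v w 1 0 (by norm_num)]
  simp

theorem circ_deriv_one (φ : T p E) (v w : E) :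
    (circ φ v w).derivative.eval 1 = p * φ (fun _ => v) - Hf φ v w w := by
  have h1 : ∀ a b : ℕ, (Polynomial.derivative (Polynomial.X ^ a * (1 - Polynomial.X ^ 2) ^ b :
      Polynomial ℝ)).eval 1 = (if b = 0 then (a : ℝ) else 0) + (if b = 1 then -2 else 0) := by
    intro a b
    rcases b with _ | _ | b
    · simp [Polynomial.derivative_X_pow]
    · simp; norm_num
    · simp [Polynomial.derivative_pow]
  rw [circ, Polynomial.derivative_sum, Polynomial.eval_finsetSum]
  have h2 : ∀ t : Finset (Fin p), (Polynomial.derivative (Polynomial.C (cf φ v w t) *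
      (Polynomial.X ^ (p - #t) * (1 - Polynomial.X ^ 2) ^ (#t / 2)))).eval 1 =
      cf φ v w t * ((if #t / 2 = 0 then ((p - #t : ℕ) : ℝ) else 0) +
        (if #t / 2 = 1 then -2 else 0)) := by
    intro t
    rw [Polynomial.derivative_C_mul, Polynomial.eval_C_mul, h1]
  simp only [h2]
  rw [← sum_card_two]
  have h3 : ∑ t : Finset (Fin p) with Even #t, cf φ v w t *
      ((if #t / 2 = 0 then ((p - #t : ℕ) : ℝ) else 0) + (if #t / 2 = 1 then -2 else 0)) =
      ∑ t : Finset (Fin p), ((if t = ∅ then (p : ℝ) * cf φ v w t else 0) -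
        2 * (if #t = 2 then cf φ v w t else 0)) := by
    rw [Finset.sum_filter]
    apply Finset.sum_congr rfl
    intro t _
    by_cases ht : Even #t
    · obtain ⟨m, hm⟩ := ht
      have hm2 : #t / 2 = m := by omega
      rw [if_pos ⟨m, hm⟩, hm2]
      rcases m with _ | _ | m
      · have : t = ∅ := Finset.card_eq_zero.1 (by omega)
        subst this
        simp; ring
      · have h5 : t ≠ ∅ := by
          intro h; subst h; simp at hm
        have h6 : #t = 2 := by omega
        simp [h5, h6]; ring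
      · have h5 : t ≠ ∅ := by
          intro h; subst h; simp at hm
        have h6 : #t ≠ 2 := by omega
        simp [h5, h6]
    · rw [if_neg ht]
      have h5 : t ≠ ∅ := by
        intro h; subst h; simp at ht
      have h6 : #t ≠ 2 := by
        intro h; rw [h] at ht; exact ht (by decide)
      simp [h5, h6]
  rw [h3, Finset.sum_sub_distrib, ← Finset.mul_sum, ← Finset.sum_filter (fun t => #t = 2)]
  rw [Finset.sum_ite_eq' Finset.univ ∅, if_pos (Finset.mem_univ _), cf_empty]

theorem diag_smul (φ : T p E) (c : ℝ) (v : E) :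
    φ (fun _ => c • v) = c ^ p * φ (fun _ => v) := by
  have := φ.map_smul_univ (fun _ => c) (fun _ => v)
  simpa using this

/-- the second order bounds at a maximum point on the unit sphere. -/
theorem second_order (φ : T p E) {v w : E} {M : ℝ} (hM : 0 < M) (hv : ‖v‖ = 1) (hw : ‖w‖ = 1)
    (hvw : inner ℝ v w = 0) (hmax : ∀ u : E, ‖u‖ = 1 → |φ (fun _ => u)| ≤ M)
    (hφv : φ (fun _ => v) = M) :
    0 ≤ p * M - Hf φ v w w ∧ p * M - Hf φ v w w ≤ (p : ℝ) ^ 2 * M := by
  have hunit : ∀ x y : ℝ, y ^ 2 = 1 - x ^ 2 → ‖x • v + y • w‖ = 1 := by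
    intro x y hxy
    have h1 : ‖x • v + y • w‖ ^ 2 = 1 := by
      rw [@norm_add_sq_real, norm_smul, norm_smul, hv, hw, inner_smul_left, inner_smul_right, hvw]
      simp
      rw [hxy]; ring
    have h2 : 0 ≤ ‖x • v + y • w‖ := norm_nonneg _
    nlinarith
  have := markov_endpoint (P := circ φ v w) hM (circ_degree φ v w) (fun x hx => by
    have hx2 : 0 ≤ 1 - x ^ 2 := by nlinarith [hx.1, hx.2]
    have hy : (Real.sqrt (1 - x ^ 2)) ^ 2 = 1 - x ^ 2 := Real.sq_sqrt hx2
    rw [circ_eval φ v w x _ hy]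
    have h1 := hmax _ (hunit x _ hy)
    have h2 := hmax _ (hunit x (-Real.sqrt (1 - x ^ 2)) (by rw [neg_sq]; exact hy))
    rw [abs_le] at h1 h2 ⊢
    constructor <;> linarith [h1.1, h1.2, h2.1, h2.2]) (by rw [circ_eval_one, hφv])
  rw [circ_deriv_one, hφv] at this
  exact this

/-- the first order condition at a maximum point on the unit sphere. -/
theorem first_order (φ : T p E) {v w : E} {M : ℝ} (hM : 0 < M) (hv : ‖v‖ = 1)
    (hvw : inner ℝ v w = 0) (hmax : ∀ u : E, ‖u‖ = 1 → |φ (fun _ => u)| ≤ M)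
    (hφv : φ (fun _ => v) = M) :
    Lf φ v w = 0 := by
  have hle : ∀ u : E, u ≠ 0 → (φ (fun _ => u)) ^ 2 ≤ M ^ 2 * (‖u‖ ^ 2) ^ p := by
    intro u hu
    have hn : ‖u‖ ≠ 0 := norm_ne_zero_iff.2 hu
    have h1 : ‖(‖u‖⁻¹ • u)‖ = 1 := by
      rw [norm_smul, norm_inv, norm_norm, inv_mul_cancel₀ hn]
    have h2 := hmax _ h1
    have h3 : φ (fun _ => u) = ‖u‖ ^ p * φ (fun _ => ‖u‖⁻¹ • u) := by
      rw [← diag_smul]
      congr 1
      ext i
      rw [smul_smul, mul_inv_cancel₀ hn, one_smul]
    rw [h3, mul_pow, ← pow_mul, ← pow_mul, mul_comm p 2, mul_comm (M ^ 2)]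
    apply mul_le_mul_of_nonneg_left _ (by positivity)
    exact sq_le_sq' (by linarith [(abs_le.1 h2).1]) (abs_le.1 h2).2
  let D : ℝ → ℝ := fun t => M ^ 2 * (1 + t ^ 2 * ‖w‖ ^ 2) ^ p - (φ (fun _ => v + t • w)) ^ 2
  have hn2 : ∀ t : ℝ, ‖v + t • w‖ ^ 2 = 1 + t ^ 2 * ‖w‖ ^ 2 := by
    intro t
    rw [@norm_add_sq_real, norm_smul, hv, inner_smul_right, hvw]
    simp
    rw [mul_pow, sq_abs]
  have hD0 : ∀ t, 0 ≤ D t := by
    intro t
    have hne : v + t • w ≠ 0 := by
      intro h
      have := hn2 t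
      rw [h] at this
      simp at this
      nlinarith [mul_nonneg (sq_nonneg t) (sq_nonneg ‖w‖)]
    have := hle _ hne
    rw [hn2] at this
    simp only [D]
    linarith
  have hDz : D 0 = 0 := by simp [D, hφv]
  have hmin : IsLocalMin D 0 := by
    apply Filter.Eventually.of_forall
    intro t
    rw [hDz]
    exact hD0 t
  have hd : HasDerivAt D (- (2 * M * Lf φ v w)) 0 := by
    have h1 := hasDerivAt_diag φ v w
    have h2 := h1.fun_pow 2
    have h3 : HasDerivAt (fun t : ℝ => M ^ 2 * (1 + t ^ 2 * ‖w‖ ^ 2) ^ p) 0 0 := by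
      have h4 : HasDerivAt (fun t : ℝ => 1 + t ^ 2 * ‖w‖ ^ 2) 0 0 := by
        have := ((hasDerivAt_pow 2 (0 : ℝ)).mul_const (‖w‖ ^ 2)).const_add 1
        simpa using this
      have := (h4.fun_pow p).const_mul (M ^ 2)
      simpa using this
    have h5 := h3.sub h2
    simp only [zero_smul, add_zero, hφv] at h5
    have h6 : (0 - ((2 : ℕ) : ℝ) * M ^ (2 - 1) * Lf φ v w) = - (2 * M * Lf φ v w) := by norm_num
    rw [h6] at h5
    exact h5
  have := hmin.hasDerivAt_eq_zero hd
  have h6 : 2 * M * Lf φ v w = 0 := by linarith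
  rcases mul_eq_zero.1 h6 with h | h
  · linarith
  · exact h


section key

variable {n : ℕ}

theorem continuous_diag (e : OrthonormalBasis (Fin n) ℝ E) (φ : T p E) :
    Continuous (fun v : E => φ (fun _ => v)) := by
  have h : (fun v : E => φ (fun _ => v)) = fun v : E =>
      ∑ I : Fin p → Fin n, (∏ a, inner ℝ (e (I a)) v) * φ (fun a => e (I a)) := by
    ext v
    have h1 : (fun _ : Fin p => v) = fun _ : Fin p => ∑ i, inner ℝ (e i) v • e i := by
      ext; rw [e.sum_repr']
    rw [h1, MultilinearMap.map_sum]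
    apply Finset.sum_congr rfl
    intro I _
    rw [MultilinearMap.map_smul_univ, smul_eq_mul]
  rw [h]
  fun_prop

theorem diag_zero : ∀ {p : ℕ} (φ : T p E), IsSymm φ → (∀ v : E, φ (fun _ => v) = 0) → φ = 0 := by
  intro p
  induction p with
  | zero =>
    intro φ _ h
    ext X
    have : X = fun _ => (0 : E) := Subsingleton.elim _ _
    rw [this]
    simpa using h 0
  | succ p ih =>
    intro φ hs h
    have hL : ∀ v w : E, Lf φ v w = 0 := by
      intro v w
      have h1 := hasDerivAt_diag φ v w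
      have h2 : (fun t : ℝ => φ (fun _ => v + t • w)) = fun _ => 0 := by
        ext t; exact h _
      rw [h2] at h1
      exact h1.unique (hasDerivAt_const _ _)
    have hcons : ∀ v w : E, φ (Fin.cons w (fun _ => v)) = 0 := by
      intro v w
      have h1 := hL v w
      have h3 : ∀ a : Fin (p + 1), φ (update (fun _ => v) a w) = φ (Fin.cons w (fun _ => v)) := by
        intro a
        rw [← hs (Equiv.swap 0 a) (Fin.cons w (fun _ => v))]
        congr 1
        ext i
        by_cases hi : i = a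
        · subst hi; simp
        · have : Equiv.swap 0 a i ≠ 0 := by
            intro h
            apply hi
            rw [Equiv.swap_apply_eq_iff] at h
            simpa using h
          obtain ⟨j, hj⟩ := Fin.exists_succ_eq.2 this
          simp [hi, ← hj]
      rw [Lf] at h1
      simp only [h3] at h1
      simp at h1
      rcases h1 with h1 | h1
      · exfalso
        have : (0 : ℝ) < (p : ℝ) + 1 := by positivity
        linarith
      · exact h1
    have hcurry : ∀ w : E, φ.curryLeft w = 0 := fun w =>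
      ih _ (hs.curryLeft w) (fun v => by rw [MultilinearMap.curryLeft_apply]; exact hcons v w)
    ext X
    have := congrArg (fun ψ : T p E => ψ (Fin.tail X)) (hcurry (X 0))
    simpa using this

/-- two slots can be moved to the front -/
theorem two_slots {q : ℕ} {φ : T (q + 2) E} (hs : IsSymm φ) (v w w' : E) {a b : Fin (q + 2)}
    (hab : a ≠ b) :
    φ (update (update (fun _ => v) a w) b w') =
      φ (Fin.cons w (Fin.cons w' (fun _ => v) : Fin (q + 1) → E)) := by
  let τ : Equiv.Perm (Fin (q + 2)) := Equiv.swap 0 a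
  have hb : τ b ≠ 0 := by
    intro h
    rw [Equiv.swap_apply_eq_iff] at h
    simp at h
    exact hab h.symm
  let σ : Equiv.Perm (Fin (q + 2)) := τ.trans (Equiv.swap 1 (τ b))
  have hσa : σ a = 0 := by
    simp only [σ, Equiv.trans_apply]
    have : τ a = 0 := Equiv.swap_apply_right _ _
    rw [this]
    exact Equiv.swap_apply_of_ne_of_ne (by simp) (Ne.symm hb)
  have hσb : σ b = 1 := by
    simp only [σ, Equiv.trans_apply]
    exact Equiv.swap_apply_right _ _
  rw [← hs σ (Fin.cons w (Fin.cons w' (fun _ => v) : Fin (q + 1) → E))]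
  congr 1
  ext i
  by_cases h1 : i = b
  · subst h1
    rw [Function.comp_apply, hσb]
    simp
  · by_cases h2 : i = a
    · subst h2
      rw [Function.comp_apply, hσa]
      simp [h1]
    · have h3 : σ i ≠ 0 := fun h => h2 (σ.injective (h.trans hσa.symm))
      have h4 : σ i ≠ 1 := fun h => h1 (σ.injective (h.trans hσb.symm))
      obtain ⟨j, hj⟩ := Fin.exists_succ_eq.2 h3
      have h5 : j ≠ 0 := by
        intro h
        apply h4
        rw [← hj, h]
        rfl
      obtain ⟨l, hl⟩ := Fin.exists_succ_eq.2 h5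
      rw [Function.comp_apply, ← hj, ← hl]
      simp [h1, h2]

theorem Hf_comm (φ : T p E) (v w w' : E) : Hf φ v w w' = Hf φ v w' w := by
  unfold Hf
  rw [Finset.sum_sigma', Finset.sum_sigma']
  refine Finset.sum_bij' (fun q _ => ⟨q.2, q.1⟩) (fun q _ => ⟨q.2, q.1⟩) ?_ ?_ ?_ ?_ ?_
  · rintro ⟨a, b⟩ h; simp at h; simp [Ne.symm h]
  · rintro ⟨a, b⟩ h; simp at h; simp [Ne.symm h]
  · rintro ⟨a, b⟩ _; rfl
  · rintro ⟨a, b⟩ _; rfl
  · rintro ⟨a, b⟩ h
    simp at h
    simp only
    rw [Function.update_comm h]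

theorem Hf_add_right (φ : T p E) (v w x y : E) :
    Hf φ v w (x + y) = Hf φ v w x + Hf φ v w y := by
  simp only [Hf, MultilinearMap.map_update_add, Finset.sum_add_distrib]

theorem Hf_smul_right (φ : T p E) (v w : E) (c : ℝ) (x : E) :
    Hf φ v w (c • x) = c * Hf φ v w x := by
  simp only [Hf, MultilinearMap.map_update_smul, smul_eq_mul, Finset.mul_sum]

theorem Hf_add_left (φ : T p E) (v w x y : E) :
    Hf φ v (x + y) w = Hf φ v x w + Hf φ v y w := by
  rw [Hf_comm, Hf_add_right, Hf_comm φ v w x, Hf_comm φ v w y]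

theorem Hf_smul_left (φ : T p E) (v w : E) (c : ℝ) (x : E) :
    Hf φ v (c • x) w = c * Hf φ v x w := by
  rw [Hf_comm, Hf_smul_right, Hf_comm φ v w x]

theorem Lf_add (φ : T p E) (v x y : E) : Lf φ v (x + y) = Lf φ v x + Lf φ v y := by
  simp only [Lf, MultilinearMap.map_update_add, Finset.sum_add_distrib]

theorem Lf_smul (φ : T p E) (v : E) (c : ℝ) (x : E) : Lf φ v (c • x) = c * Lf φ v x := by
  simp only [Lf, MultilinearMap.map_update_smul, smul_eq_mul, Finset.mul_sum]

theorem Lf_self (φ : T p E) (v : E) : Lf φ v v = p * φ (fun _ => v) := by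
  simp [Lf]

theorem Hf_self (φ : T p E) (v : E) : Hf φ v v v = p * (p - 1 : ℝ) * φ (fun _ => v) := by
  unfold Hf
  have : ∀ a : Fin p, ∑ b ∈ Finset.univ.erase a, φ (update (update (fun _ => v) a v) b v) =
      ((p - 1 : ℕ) : ℝ) * φ (fun _ => v) := by
    intro a
    simp [Finset.card_erase_of_mem]
  simp only [this]
  rcases p with _ | p
  · simp
  · simp; ring

/-- trace of a bilinear form is basis independent -/
theorem trace_indep (e e' : OrthonormalBasis (Fin n) ℝ E) (B : E →ₗ[ℝ] E →ₗ[ℝ] ℝ) :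
    ∑ i, B (e i) (e i) = ∑ i, B (e' i) (e' i) := by
  have h1 : ∀ i, B (e i) (e i) = ∑ j, ∑ k, inner ℝ (e' j) (e i) * inner ℝ (e i) (e' k) *
      B (e' j) (e' k) := by
    intro i
    conv_lhs => rw [← e'.sum_repr' (e i)]
    simp only [map_sum, LinearMap.sum_apply, map_smul, LinearMap.smul_apply, smul_eq_mul,
      Finset.mul_sum]
    rw [Finset.sum_comm]
    apply Finset.sum_congr rfl
    intro j _
    apply Finset.sum_congr rfl
    intro k _
    rw [real_inner_comm (e' k) (e i)]
    ring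
  simp only [h1]
  rw [Finset.sum_comm]
  apply Finset.sum_congr rfl
  intro j _
  rw [Finset.sum_comm]
  have h2 : ∀ k, ∑ i, inner ℝ (e' j) (e i) * inner ℝ (e i) (e' k) * B (e' j) (e' k) =
      if j = k then B (e' j) (e' k) else 0 := by
    intro k
    rw [← Finset.sum_mul, e.sum_inner_mul_inner, orthonormal_iff_ite.1 e'.orthonormal]
    split_ifs <;> simp
  simp only [h2]
  simp

theorem bochnerTerm_indep (R : E →ₗ[ℝ] E →ₗ[ℝ] E →ₗ[ℝ] E) (e e' : OrthonormalBasis (Fin n) ℝ E)
    (φ : T p E) (X : Fin p → E) :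
    bochnerTerm R e φ X = bochnerTerm R e' φ X := by
  unfold bochnerTerm
  apply Finset.sum_congr rfl
  intro a _
  let B : E →ₗ[ℝ] E →ₗ[ℝ] ℝ := LinearMap.mk₂ ℝ
    (fun x y => rho (R x (X a)) φ (update X a y))
    (fun x x' y => by rw [map_add, LinearMap.add_apply, rho_add]; rfl)
    (fun c x y => by rw [map_smul, LinearMap.smul_apply, rho_smul]; rfl)
    (fun x y y' => by rw [MultilinearMap.map_update_add])
    (fun c x y => by rw [MultilinearMap.map_update_smul])
  have := trace_indep e e' B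
  simp only [act_eq_rho]
  exact this


theorem bochner_diag (R : E →ₗ[ℝ] E →ₗ[ℝ] E →ₗ[ℝ] E) (e : Fin n → E) (φ : T p E) (v : E) :
    bochnerTerm R e φ (fun _ => v) =
      - ∑ i, Lf φ v (R (e i) v (e i)) - ∑ i, Hf φ v (e i) (R (e i) v v) := by
  unfold bochnerTerm act
  have h : ∀ (a : Fin p) (i : Fin n), (- ∑ b, φ (update (update (fun _ => v) a (e i)) b
      (R (e i) v ((update (fun _ => v) a (e i) : Fin p → E) b)))) =
      - φ (update (fun _ => v) a (R (e i) v (e i))) -
      ∑ b ∈ Finset.univ.erase a, φ (update (update (fun _ => v) a (e i)) b (R (e i) v v)) := by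
    intro a i
    rw [← Finset.add_sum_erase _ _ (Finset.mem_univ a), neg_add, update_idem, update_self,
      sub_eq_add_neg]
    congr 2
    apply Finset.sum_congr rfl
    intro b hb
    rw [update_of_ne (Finset.ne_of_mem_erase hb)]
  simp only [h, Finset.sum_sub_distrib, Finset.sum_neg_distrib, Lf, Hf]
  rw [Finset.sum_comm]
  congr 1
  rw [Finset.sum_comm]

/-- the pointwise argument at a maximum -/
theorem core_nonneg {m k : ℕ} {R : E →ₗ[ℝ] E →ₗ[ℝ] E →ₗ[ℝ] E} (hR : IsCurvatureTensor R)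
    (e : OrthonormalBasis (Fin (m + 1)) ℝ E) (hk : 1 ≤ k) (hp : 1 ≤ p)
    (hkp : (k - 1) * p + 1 ≤ m)
    (hric : ∀ (b : OrthonormalBasis (Fin (m + 1)) ℝ E) (S : Finset (Fin m)), S.card = k →
      0 ≤ ∑ j ∈ S, inner ℝ (R (b j.succ) (b 0) (b 0)) (b j.succ))
    (φ : T p E) (c : ℝ) (hK : Kop R e φ = c • φ) {v : E} {M : ℝ} (hM : 0 < M) (hv : ‖v‖ = 1)
    (hmax : ∀ u : E, ‖u‖ = 1 → |φ (fun _ => u)| ≤ M) (hφv : φ (fun _ => v) = M)
    (hharm : ∑ i, Hf φ v (e i) (e i) = 0) : 0 ≤ c := by
  have hfd : FiniteDimensional ℝ E := e.toBasis.finiteDimensional_of_finite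
  have hrank : Module.finrank ℝ E = m + 1 := by
    rw [Module.finrank_eq_card_basis e.toBasis]; simp
  have hfact : Fact (Module.finrank ℝ E = m + 1) := ⟨hrank⟩
  have hvne : v ≠ 0 := by
    intro h; rw [h] at hv; simp at hv
  let F : Submodule ℝ E := (Submodule.span ℝ {v})ᗮ
  have hFrank : Module.finrank ℝ F = m := Submodule.finrank_orthogonal_span_singleton hvne
  have hF : ∀ x : E, x ∈ F ↔ inner ℝ v x = 0 := by
    intro x
    exact Submodule.mem_orthogonal_singleton_iff_inner_right
  let HL : E →ₗ[ℝ] E →ₗ[ℝ] ℝ := LinearMap.mk₂ ℝ (Hf φ v)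
    (fun x y w => Hf_add_left φ v w x y) (fun a x w => Hf_smul_left φ v w a x)
    (fun w x y => Hf_add_right φ v w x y) (fun a w x => Hf_smul_right φ v w a x)
  have HL_apply : ∀ x y, HL x y = Hf φ v x y := fun x y => rfl
  let b0 := stdOrthonormalBasis ℝ F
  let Tm : F →ₗ[ℝ] F := ∑ i, ((HL.flip (b0 i)).comp F.subtype).smulRight (b0 i)
  have hT : ∀ x y : F, inner ℝ (Tm x) y = Hf φ v x y := by
    intro x y
    have h1 : Tm x = ∑ i, Hf φ v x (b0 i) • b0 i := by
      simp [Tm, HL_apply]
    rw [h1, sum_inner]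
    simp only [inner_smul_left]
    have h2 : (y : E) = ∑ i, inner ℝ (b0 i) y • (b0 i : E) := by
      conv_lhs => rw [← b0.sum_repr' y]
      simp
    conv_rhs => rw [h2, ← HL_apply, map_sum]
    apply Finset.sum_congr rfl
    intro i _
    rw [map_smul, HL_apply]
    simp
    ring
  have hTs : Tm.IsSymmetric := by
    intro x y
    rw [hT, real_inner_comm, hT, Hf_comm]
  let b := hTs.eigenvectorBasis hFrank
  let μ : Fin m → ℝ := fun i => hTs.eigenvalues hFrank i
  have hb : ∀ i (y : E), inner ℝ v y = 0 → Hf φ v (b i) y = μ i * inner ℝ (b i : E) y := by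
    intro i y hy
    have h1 := hT (b i) ⟨y, (hF y).2 hy⟩
    have h2 : Tm (b i) = μ i • b i := hTs.apply_eigenvectorBasis hFrank i
    rw [h2, inner_smul_left] at h1
    simp only [Submodule.coe_inner] at h1
    rw [← h1]
    simp
  -- the adapted basis
  have hon : Orthonormal ℝ (Fin.cons v (fun j => (b j : E)) : Fin (m + 1) → E) := by
    rw [orthonormal_iff_ite]
    intro i j
    have hbv : ∀ j, inner ℝ v (b j : E) = 0 := fun j => (hF _).1 (b j).2
    refine Fin.cases ?_ (fun i' => ?_) i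
    · refine Fin.cases ?_ (fun j' => ?_) j
      · simp [hv]
      · simp [hbv, (Fin.succ_ne_zero j').symm]
    · refine Fin.cases ?_ (fun j' => ?_) j
      · simp [Fin.succ_ne_zero, real_inner_comm, hbv]
      · have := orthonormal_iff_ite.1 b.orthonormal i' j'
        simp only [Submodule.coe_inner] at this
        simpa using this
  obtain ⟨e', he'⟩ := Orthonormal.exists_orthonormalBasis_extension_of_card_eq
    (ι := Fin (m + 1)) (s := Set.univ) (by simpa using hrank)
    (v := (Fin.cons v (fun j => (b j : E)) : Fin (m + 1) → E))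
    (hon.comp _ Subtype.val_injective)
  have he0 : e' 0 = v := by simpa using he' 0 (Set.mem_univ _)
  have hes : ∀ j : Fin m, e' j.succ = b j := fun j => by
    simpa using he' j.succ (Set.mem_univ _)
  have hbv : ∀ j, inner ℝ v (b j : E) = 0 := fun j => (hF _).1 (b j).2
  have hbn : ∀ j, ‖(b j : E)‖ = 1 := fun j => b.orthonormal.1 j
  -- first order
  have hL : ∀ w, Lf φ v w = p * M * inner ℝ v w := by
    intro w
    have h1 : w = inner ℝ v w • v + (w - inner ℝ v w • v) := by abel
    have h2 : inner ℝ v (w - inner ℝ v w • v) = 0 := by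
      rw [inner_sub_right, inner_smul_right, real_inner_self_eq_norm_sq, hv]
      simp
    conv_lhs => rw [h1]
    rw [Lf_add, Lf_smul, Lf_self, first_order φ hM hv h2 hmax hφv, hφv]
    ring
  -- sectional curvatures
  let s : Fin m → ℝ := fun j => inner ℝ (R (b j) v v) (b j)
  have hRvv : ∀ x, inner ℝ v (R x v v) = 0 := by
    intro x
    have := hR.skew x v v v
    rw [real_inner_comm] at this
    linarith [real_inner_comm v (R x v v)]
  have hmain : c * M = ∑ j, (p * M - μ j) * s j := by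
    have h1 : Kop R e φ (fun _ => v) = c * M := by
      rw [hK]
      simp [hφv]
    rw [← h1, Kop_apply hR, bochnerTerm_indep R e e', bochner_diag]
    simp only [hL]
    rw [Fin.sum_univ_succ, Fin.sum_univ_succ, he0]
    have hz : R v v = 0 := by
      refine LinearMap.ext fun Z => ?_
      have := hR.antisymm v v Z
      have h2 : (2 : ℝ) • R v v Z = 0 := by
        rw [two_smul]
        nth_rewrite 1 [this]
        simp
      simpa using h2
    have hHz : Hf φ v v 0 = 0 := by
      have := Hf_smul_right φ v v 0 0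
      simpa using this
    simp only [hz, LinearMap.zero_apply, inner_zero_right, mul_zero, zero_add, hHz]
    simp only [hes]
    rw [← Finset.sum_neg_distrib, ← Finset.sum_sub_distrib]
    apply Finset.sum_congr rfl
    intro j _
    rw [hb j _ (hRvv _)]
    have h3 : inner ℝ v (R (b j) v (b j)) = - s j := by
      simp only [s]
      rw [hR.skew, neg_neg]
    rw [h3]
    have h4 : inner ℝ (b j : E) (R (b j) v v) = s j := by
      simp only [s]
      rw [real_inner_comm]
    rw [h4]
    ring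
  have hμ : ∀ j, Hf φ v (b j) (b j) = μ j := by
    intro j
    rw [hb j _ (hbv j), real_inner_self_eq_norm_sq, hbn]
    ring
  have hbound : ∀ j, 0 ≤ p * M - μ j ∧ p * M - μ j ≤ (p : ℝ) ^ 2 * M := by
    intro j
    have := second_order φ hM hv (hbn j) (hbv j) hmax hφv
    rwa [hμ] at this
  have hsumμ : ∑ j, μ j = - (p * (p - 1 : ℝ) * M) := by
    have h1 : ∑ i, Hf φ v (e' i) (e' i) = 0 := by
      rw [← hharm]
      exact (trace_indep e e' HL).symm
    rw [Fin.sum_univ_succ, he0, Hf_self, hφv] at h1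
    simp only [hes, hμ] at h1
    linarith
  have hsum : (k : ℝ) * ((p : ℝ) ^ 2 * M) ≤ ∑ j, (p * M - μ j) := by
    rw [Finset.sum_sub_distrib, hsumμ]
    simp only [Finset.sum_const, Finset.card_univ, Fintype.card_fin, nsmul_eq_mul]
    have h1 : ((k : ℝ) - 1) * p + 1 ≤ m := by
      have : (((k - 1) * p + 1 : ℕ) : ℝ) ≤ (m : ℕ) := by exact_mod_cast hkp
      push_cast [Nat.cast_sub hk] at this
      exact this
    have hp0 : (0 : ℝ) ≤ p * M := by positivity
    nlinarith [mul_le_mul_of_nonneg_left h1 hp0]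
  have hkm : k ≤ m := by
    obtain ⟨k', rfl⟩ : ∃ k', k = k' + 1 := ⟨k - 1, by omega⟩
    simp only [Nat.add_sub_cancel] at hkp
    nlinarith
  have hfin := weighted_nonneg hk hkm s (fun j => p * M - μ j) ((p : ℝ) ^ 2 * M)
    (fun j => (hbound j).1) (fun j => (hbound j).2) hsum (by
      intro S hS
      have := hric e' S hS
      simpa only [he0, hes] using this)
  rw [← hmain] at hfin
  by_contra hneg
  push Not at hneg
  nlinarith


/-- eigenvalue nonnegativity, given the Hessian trace condition everywhere -/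
theorem eig_harm {m k : ℕ} {R : E →ₗ[ℝ] E →ₗ[ℝ] E →ₗ[ℝ] E} (hR : IsCurvatureTensor R)
    (e : OrthonormalBasis (Fin (m + 1)) ℝ E) (hk : 1 ≤ k) (hp : 1 ≤ p)
    (hkp : (k - 1) * p + 1 ≤ m)
    (hric : ∀ (b : OrthonormalBasis (Fin (m + 1)) ℝ E) (S : Finset (Fin m)), S.card = k →
      0 ≤ ∑ j ∈ S, inner ℝ (R (b j.succ) (b 0) (b 0)) (b j.succ))
    (φ : T p E) (hs : IsSymm φ) (hne : φ ≠ 0) (c : ℝ) (hK : Kop R e φ = c • φ)
    (hharm : ∀ v, ∑ i, Hf φ v (e i) (e i) = 0) : 0 ≤ c := by
  have hfd : FiniteDimensional ℝ E := e.toBasis.finiteDimensional_of_finite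
  have hcont := continuous_diag e φ
  have hcomp : IsCompact (Metric.sphere (0 : E) 1) := isCompact_sphere _ _
  have hnes : (Metric.sphere (0 : E) 1).Nonempty := ⟨e 0, by simp⟩
  obtain ⟨v, hv, hvmax⟩ := hcomp.exists_isMaxOn hnes (hcont.abs.continuousOn)
  have hv1 : ‖v‖ = 1 := by simpa using hv
  have hmax : ∀ u : E, ‖u‖ = 1 → |φ (fun _ => u)| ≤ |φ (fun _ => v)| := by
    intro u hu
    exact hvmax (by simpa using hu)
  have hpos : 0 < |φ (fun _ => v)| := by
    rw [abs_pos]
    intro h0
    apply hne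
    apply diag_zero φ hs
    intro u
    by_cases hu : u = 0
    · rw [hu]
      have : (fun _ : Fin p => (0 : E)) = 0 := rfl
      rw [this]
      have : Nonempty (Fin p) := ⟨⟨0, hp⟩⟩
      exact φ.map_zero
    · have hn : ‖u‖ ≠ 0 := norm_ne_zero_iff.2 hu
      have h1 : ‖(‖u‖⁻¹ • u)‖ = 1 := by
        rw [norm_smul, norm_inv, norm_norm, inv_mul_cancel₀ hn]
      have h2 := hmax _ h1
      rw [h0, abs_zero] at h2
      have h3 : φ (fun _ => ‖u‖⁻¹ • u) = 0 := by
        have := le_antisymm h2 (abs_nonneg _)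
        simpa using this
      rw [diag_smul] at h3
      rcases mul_eq_zero.1 h3 with h | h
      · exact absurd h (pow_ne_zero _ (inv_ne_zero hn))
      · exact h
  rcases lt_or_ge 0 (φ (fun _ => v)) with hφ | hφ
  · rw [abs_of_pos hφ] at hmax
    exact core_nonneg hR e hk hp hkp hric φ c hK hφ hv1 hmax rfl (hharm v)
  · have hφ' : φ (fun _ => v) ≠ 0 := by
      intro h; rw [h] at hpos; simp at hpos
    have hφ'' : 0 < (-φ) (fun _ => v) := by
      rw [neg_apply]
      have := lt_of_le_of_ne hφ hφ'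
      linarith
    refine core_nonneg hR e hk hp hkp hric (-φ) c ?_ hφ'' hv1 ?_ rfl ?_
    · rw [map_neg, hK]
      ext X
      simp
    · intro u hu
      have := hmax u hu
      rw [abs_of_nonpos hφ] at this
      simpa using this
    · have := hharm v
      have h2 : ∀ i, Hf (-φ) v (e i) (e i) = - Hf φ v (e i) (e i) := by
        intro i
        simp [Hf]
      simp only [h2, Finset.sum_neg_distrib, this, neg_zero]

theorem eig_nonneg {m k : ℕ} {R : E →ₗ[ℝ] E →ₗ[ℝ] E →ₗ[ℝ] E} (hR : IsCurvatureTensor R)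
    (e : OrthonormalBasis (Fin (m + 1)) ℝ E) (hk : 1 ≤ k)
    (hric : ∀ (b : OrthonormalBasis (Fin (m + 1)) ℝ E) (S : Finset (Fin m)), S.card = k →
      0 ≤ ∑ j ∈ S, inner ℝ (R (b j.succ) (b 0) (b 0)) (b j.succ)) :
    ∀ (p : ℕ), (k - 1) * p + 1 ≤ m → ∀ (φ : T p E), IsSymm φ → φ ≠ 0 →
      ∀ c : ℝ, Kop R e φ = c • φ → 0 ≤ c := by
  intro p
  induction p using Nat.strong_induction_on with
  | _ p ih =>
    intro hkp φ hs hne c hK
    match p, ih, hkp, φ, hs, hne, hK with
    | 0, _, _, φ, _, hne, hK =>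
      have h0 : Kop R e φ = 0 := by
        ext X
        rw [Kop_apply hR]
        simp [bochnerTerm]
      rw [h0] at hK
      rcases smul_eq_zero.1 hK.symm with h | h
      · exact h.ge
      · exact absurd h hne
    | 1, _, hkp, φ, hs, hne, hK =>
      refine eig_harm hR e hk le_rfl hkp hric φ hs hne c hK ?_
      intro v
      apply Finset.sum_eq_zero
      intro i _
      unfold Hf
      apply Finset.sum_eq_zero
      intro a _
      apply Finset.sum_eq_zero
      intro b hb
      exact absurd (Subsingleton.elim b a) (Finset.ne_of_mem_erase hb)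
    | q + 2, ih, hkp, φ, hs, hne, hK =>
      by_cases htr : tr e φ = 0
      · refine eig_harm hR e hk (by omega) hkp hric φ hs hne c hK ?_
        intro v
        have h1 : ∀ i, Hf φ v (e i) (e i) = ((q + 2 : ℕ) : ℝ) * ((q + 1 : ℕ) : ℝ) *
            φ (Fin.cons (e i) (Fin.cons (e i) (fun _ => v) : Fin (q + 1) → E)) := by
          intro i
          unfold Hf
          have h2 : ∀ a : Fin (q + 2), ∑ b ∈ Finset.univ.erase a,
              φ (update (update (fun _ => v) a (e i)) b (e i)) =
              ((q + 1 : ℕ) : ℝ) *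
              φ (Fin.cons (e i) (Fin.cons (e i) (fun _ => v) : Fin (q + 1) → E)) := by
            intro a
            rw [Finset.sum_congr rfl (fun b hb =>
              two_slots hs v (e i) (e i) (Ne.symm (Finset.ne_of_mem_erase hb)))]
            simp [Finset.card_erase_of_mem]
          simp only [h2]
          simp
          ring
        simp only [h1]
        rw [← Finset.mul_sum]
        have h3 := congrArg (fun ψ : T q E => ψ (fun _ => v)) htr
        simp only [tr_apply] at h3
        rw [h3]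
        simp
      · refine ih q (by omega) ?_ (tr e φ) (tr_mem_Sy e hs) htr c ?_
        · refine le_trans ?_ hkp
          gcongr
          omega
        · rw [← tr_Kop hR, hK, map_smul]

end key


/-- A more general form: any `k ≥ 1` with `(k - 1) p + 2 ≤ n`. -/
theorem general {n p k : ℕ} (hk : 1 ≤ k) (hkp : (k - 1) * p + 2 ≤ n)
    (R : E →ₗ[ℝ] E →ₗ[ℝ] E →ₗ[ℝ] E) (hR : IsCurvatureTensor R) (hsec : KNonnegSec n R k)
    (e : OrthonormalBasis (Fin n) ℝ E) (φ : MultilinearMap ℝ (fun _ : Fin p => E) ℝ)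
    (hφ : IsSymm φ) :
    0 ≤ ∑ I : Fin p → Fin n, bochnerTerm R e φ (fun a => e (I a)) * φ (fun a => e (I a)) := by
  obtain ⟨m, rfl⟩ : ∃ m, n = m + 1 := ⟨n - 1, by omega⟩
  have h1 : ∑ I : Fin p → Fin (m + 1), bochnerTerm R e φ (fun a => e (I a)) *
      φ (fun a => e (I a)) = ip e (Kop R e φ) φ := by
    unfold ip
    apply Finset.sum_congr rfl
    intro I _
    rw [Kop_apply hR]
    rfl
  rw [h1]
  by_contra hneg
  push Not at hneg
  obtain ⟨ψ, hψ, hne, c, hc, hK⟩ := exists_neg_eigenvector e (Sy p E) (Kop R e)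
    (fun χ hχ => Kop_mem_Sy _ hχ) (ip_Kop_symm hR e) φ hφ hneg
  have := eig_nonneg hR e hk (fun b S hS => by
    have h2 := hsec b (S.map ⟨fun j => ((0 : Fin (m + 1)), j.succ), fun i j h => by
      simpa using h⟩) (by
        intro q hq
        rw [Finset.mem_map] at hq
        obtain ⟨j, _, rfl⟩ := hq
        exact Fin.succ_pos j) (by rw [Finset.card_map, hS])
    rw [Finset.sum_map] at h2
    refine h2.trans_eq ?_
    apply Finset.sum_congr rfl
    intro j _
    change inner ℝ (R (b 0) (b j.succ) (b j.succ)) (b 0) = _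
    rw [hR.pair, hR.antisymm, inner_neg_left, hR.skew, neg_neg, real_inner_comm]) p (by omega)
    ψ hψ hne c hK
  linarith

/-- The main theorem, in the form of the question: `k(n,p) = ⌊(n + p - 2) / p⌋`-nonnegative
sectional curvature implies that the curvature term on symmetric `p`-tensors is nonnegative. -/
theorem result (n p : ℕ) (hn : 2 ≤ n) (hp : 3 ≤ p)
    {V : Type*} [NormedAddCommGroup V] [InnerProductSpace ℝ V]
    (R : V →ₗ[ℝ] V →ₗ[ℝ] V →ₗ[ℝ] V) (hR : IsCurvatureTensor R)
    (hsec : KNonnegSec n R ((n + p - 2) / p))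
    (e : OrthonormalBasis (Fin n) ℝ V) (φ : MultilinearMap ℝ (fun _ : Fin p => V) ℝ)
    (hφ : IsSymm φ) :
    0 ≤ ∑ I : Fin p → Fin n, bochnerTerm R e φ (fun a => e (I a)) * φ (fun a => e (I a)) := by
  have hk : 1 ≤ (n + p - 2) / p := by
    rw [Nat.one_le_div_iff (by omega)]
    omega
  refine general hk ?_ R hR hsec e φ hφ
  have h1 := Nat.div_mul_le_self (n + p - 2) p
  obtain ⟨k', hk'⟩ : ∃ k', (n + p - 2) / p = k' + 1 := ⟨(n + p - 2) / p - 1, by omega⟩
  rw [hk'] at h1 ⊢
  rw [Nat.add_sub_cancel]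
  rw [add_mul, one_mul] at h1
  omega

end Pool.Agent.Results.MP_b296c2_gt.Pointwise
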