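import Mathlib
import Pool.Agent.Results.MP_b296c2_gt.Pointwise

/-!
Manifold version of the pointwise theorem: on a smooth Riemannian manifold with
`⌊(n + p - 2) / p⌋`-nonnegative sectional curvature the zeroth-order Bochner term on symmetric
`p`-tensors is positive semidefinite.

The Riemannian metric is Mathlib's smooth Riemannian structure on the tangent bundle, the
Levi-Civita connection is a smooth covariant derivative on the tangent bundle (Mathlib's
`CovariantDerivative`) which is metric and torsion-free, and the curvature tensor is the family of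
trilinear maps given by `R(X,Y)Z = ∇_X ∇_Y Z - ∇_Y ∇_X Z - ∇_{[X,Y]} Z`.  Its existence is
`exists_riemann`, and its algebraic symmetries are proved in `isCurvatureTensor`.
-/

open Bundle Manifold ContDiff VectorField Filter
open scoped Topology

set_option linter.unusedSectionVars false

noncomputable section

namespace Pool.Agent.Results.MP_b296c2_gt.Riemannian


variable {E : Type*} [NormedAddCommGroup E] [NormedSpace ℝ E] [FiniteDimensional ℝ E]
  {H : Type*} [TopologicalSpace H] {I : ModelWithCorners ℝ E H}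
  {M : Type*} [TopologicalSpace M] [ChartedSpace H M] [IsManifold I ∞ M]

/-- The vector field `∇_X Y` of a covariant derivative. -/
def nabla (cov : CovariantDerivative I E (TangentSpace I : M → Type _))
    (X Y : Π x : M, TangentSpace I x) : Π x : M, TangentSpace I x :=
  fun x => cov Y x (X x)

theorem smooth_nabla (cov : CovariantDerivative I E (TangentSpace I : M → Type _))
    [hc : CovariantDerivative.ContMDiffCovariantDerivative cov ∞]
    {X Y : Π x : M, TangentSpace I x} (hX : CMDiff ∞ (T% X)) (hY : CMDiff ∞ (T% Y)) :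
    CMDiff ∞ (T% (nabla cov X Y)) := by
  have h1 := hc.contMDiff.contMDiff (σ := Y) (by
    have : CMDiff ∞ (T% Y) := hY
    exact this.contMDiffOn)
  rw [contMDiffOn_univ] at h1
  exact ContMDiff.clm_bundle_apply h1 hX

theorem two_le_infty : (2 : ℕ∞ω) ≤ ∞ := by
  exact ENat.LEInfty.out

theorem smooth_bracket {X Y : Π x : M, TangentSpace I x}
    (hX : CMDiff ∞ (T% X)) (hY : CMDiff ∞ (T% Y)) :
    CMDiff ∞ (T% (mlieBracket I X Y)) := by
  have : IsManifold I ((∞ : ℕ∞ω) + 1) M := by
    have : ((∞ : ℕ∞ω) + 1) = ∞ := rfl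
    rw [this]; infer_instance
  have hmin : IsManifold I (minSmoothness ℝ 2) M := by
    simp only [minSmoothness_of_isRCLikeNormedField]
    infer_instance
  exact ContDiff.mlieBracket_vectorField (m := ⊤) (n := ⊤) hX hY (by simp)

theorem mdiffAt {X : Π x : M, TangentSpace I x} (hX : CMDiff ∞ (T% X)) (x : M) :
    MDiffAt (T% X) x :=
  (hX x).mdifferentiableAt (by simp)

theorem comm_aux {f : M → ℝ} {X Y Z : Π x : M, TangentSpace I x} (hf : CMDiff ∞ f)
    (hX : CMDiff ∞ (T% X)) (hY : CMDiff ∞ (T% Y)) (hZ : CMDiff ∞ (T% Z))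
    (hXf : CMDiff ∞ (fun y => d% f y (X y))) (hYf : CMDiff ∞ (fun y => d% f y (Y y))) (x : M) :
    (d% (fun y => d% f y (Y y)) x (X x) - d% (fun y => d% f y (X y)) x (Y x)
      - d% f x (mlieBracket I X Y x)) • Z x = 0 := by
  have hmin : IsManifold I (minSmoothness ℝ 3) M := by
    simp only [minSmoothness_of_isRCLikeNormedField]
    infer_instance
  have hfd : ∀ y, MDiffAt f y := fun y => (hf y).mdifferentiableAt (by simp)
  have hXfd : ∀ y, MDiffAt (fun y => d% f y (X y)) y := fun y =>
    (hXf y).mdifferentiableAt (by simp)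
  have hYfd : ∀ y, MDiffAt (fun y => d% f y (Y y)) y := fun y =>
    (hYf y).mdifferentiableAt (by simp)
  have hfZ : CMDiff ∞ (T% (f • Z)) := ContMDiff.smul_section hf hZ
  have hJ := leibniz_identity_mlieBracket_apply (I := I) (U := X) (V := Y) (W := f • Z) (x := x)
    ((hX x).of_le (by simpa using two_le_infty)) ((hY x).of_le (by simpa using two_le_infty))
    ((hfZ x).of_le (by simpa using two_le_infty))
  have hJ0 := leibniz_identity_mlieBracket_apply (I := I) (U := X) (V := Y) (W := Z) (x := x)
    ((hX x).of_le (by simpa using two_le_infty)) ((hY x).of_le (by simpa using two_le_infty))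
    ((hZ x).of_le (by simpa using two_le_infty))
  have e1 : mlieBracket I Y (f • Z) = (fun y => d% f y (Y y)) • Z + f • mlieBracket I Y Z := by
    ext1 y
    exact mlieBracket_smul_right (hfd y) (mdiffAt hZ y)
  have e2 : mlieBracket I X (f • Z) = (fun y => d% f y (X y)) • Z + f • mlieBracket I X Z := by
    ext1 y
    exact mlieBracket_smul_right (hfd y) (mdiffAt hZ y)
  have e3 : mlieBracket I X ((fun y => d% f y (Y y)) • Z + f • mlieBracket I Y Z) x =
      (d% (fun y => d% f y (Y y)) x (X x) • Z x + d% f x (Y x) • mlieBracket I X Z x) +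
      (d% f x (X x) • mlieBracket I Y Z x + f x • mlieBracket I X (mlieBracket I Y Z) x) := by
    rw [mlieBracket_add_right, mlieBracket_smul_right (hYfd x) (mdiffAt hZ x),
      mlieBracket_smul_right (hfd x) (mdiffAt (smooth_bracket hY hZ) x)]
    · exact mdiffAt (ContMDiff.smul_section hYf hZ) x
    · exact mdiffAt (ContMDiff.smul_section hf (smooth_bracket hY hZ)) x
  have e4 : mlieBracket I Y ((fun y => d% f y (X y)) • Z + f • mlieBracket I X Z) x =
      (d% (fun y => d% f y (X y)) x (Y x) • Z x + d% f x (X x) • mlieBracket I Y Z x) +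
      (d% f x (Y x) • mlieBracket I X Z x + f x • mlieBracket I Y (mlieBracket I X Z) x) := by
    rw [mlieBracket_add_right, mlieBracket_smul_right (hXfd x) (mdiffAt hZ x),
      mlieBracket_smul_right (hfd x) (mdiffAt (smooth_bracket hX hZ) x)]
    · exact mdiffAt (ContMDiff.smul_section hXf hZ) x
    · exact mdiffAt (ContMDiff.smul_section hf (smooth_bracket hX hZ)) x
  have e5 : mlieBracket I (mlieBracket I X Y) (f • Z) x =
      d% f x (mlieBracket I X Y x) • Z x + f x • mlieBracket I (mlieBracket I X Y) Z x :=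
    mlieBracket_smul_right (hfd x) (mdiffAt hZ x)
  rw [e1, e2, e3, e4, e5] at hJ
  rw [hJ0] at hJ
  rw [sub_smul, sub_smul]
  have h := sub_eq_zero.2 hJ
  rw [← h]
  module


/-- The curvature `R(X,Y)Z = ∇_X ∇_Y Z - ∇_Y ∇_X Z - ∇_{[X,Y]} Z` of a connection, evaluated on
vector fields. -/
def curv (cov : CovariantDerivative I E (TangentSpace I : M → Type _))
    (X Y Z : Π x : M, TangentSpace I x) : Π x : M, TangentSpace I x :=
  fun x => cov (nabla cov Y Z) x (X x) - cov (nabla cov X Z) x (Y x) -
    cov Z x (mlieBracket I X Y x)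

theorem curv_antisymm (cov : CovariantDerivative I E (TangentSpace I : M → Type _))
    (X Y Z : Π x : M, TangentSpace I x) (x : M) :
    curv cov X Y Z x = - curv cov Y X Z x := by
  simp only [curv]
  rw [mlieBracket_swap_apply, map_neg]
  abel

/-- global smooth extension of a tangent vector -/
theorem exists_smooth_field [T2Space M] [SigmaCompactSpace M] (x : M) (v : TangentSpace I x) :
    ∃ X : Π x : M, TangentSpace I x, CMDiff ∞ (T% X) ∧ X x = v := by
  classical
  let t : ∀ y : M, Set (TangentSpace I y) := fun y => {w | ∀ h : y = x, h ▸ w = v}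
  obtain ⟨s, hs⟩ := exists_contMDiffSection_forall_mem_convex_of_local (n := (⊤ : ℕ∞)) I
    (TangentSpace I : M → Type _) t (by
      intro y a ha b hb c d hc hd hcd h
      subst h
      have h1 : a = v := ha rfl
      have h2 : b = v := hb rfl
      change c • a + d • b = v
      rw [h1, h2, ← add_smul, hcd, one_smul]) (by
      intro x0
      by_cases h : x0 = x
      · subst h
        obtain ⟨U, hU, hs⟩ := FiberBundle.exists_contMDiffOn_extend (k := ∞) I E v
        refine ⟨U, hU, _, hs, ?_⟩
        intro y _ h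
        subst h
        simp
      · refine ⟨{x}ᶜ, isOpen_compl_singleton.mem_nhds h, fun y => 0, ?_, ?_⟩
        · exact (contMDiff_zeroSection ℝ (TangentSpace I : M → Type _)).contMDiffOn
        · intro y hy h
          exact absurd h hy)
  exact ⟨s, s.contMDiff, hs x rfl⟩


theorem comm_fun [T2Space M] [SigmaCompactSpace M] [Nontrivial E] {f : M → ℝ}
    {X Y : Π x : M, TangentSpace I x} (hf : CMDiff ∞ f)
    (hX : CMDiff ∞ (T% X)) (hY : CMDiff ∞ (T% Y))
    (hXf : CMDiff ∞ (fun y => d% f y (X y))) (hYf : CMDiff ∞ (fun y => d% f y (Y y))) (x : M) :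
    d% (fun y => d% f y (Y y)) x (X x) - d% (fun y => d% f y (X y)) x (Y x) =
      d% f x (mlieBracket I X Y x) := by
  obtain ⟨v, hv⟩ : ∃ v : TangentSpace I x, v ≠ 0 := by
    have : Nontrivial (TangentSpace I x) := inferInstanceAs (Nontrivial E)
    exact exists_ne 0
  obtain ⟨Z, hZ, hZx⟩ := exists_smooth_field (I := I) x v
  have h := comm_aux hf hX hY hZ hXf hYf x
  rw [hZx] at h
  rcases smul_eq_zero.1 h with h | h
  · linarith
  · exact absurd h hv

section Riem

variable [RiemannianBundle (fun x : M => TangentSpace I x)]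
  [IsContMDiffRiemannianBundle I ∞ E (fun x : M => TangentSpace I x)]

theorem smooth_inner {A B : Π x : M, TangentSpace I x} (hA : CMDiff ∞ (T% A))
    (hB : CMDiff ∞ (T% B)) :
    CMDiff ∞ (fun y => inner ℝ (A y) (B y)) := by
  apply ContMDiff.inner_bundle (F := E) (E := fun x : M => TangentSpace I x) (IB := I)
  · exact hA
  · exact hB

/-- The connection is compatible with the metric:
`X ⟨Y, Z⟩ = ⟨∇_X Y, Z⟩ + ⟨Y, ∇_X Z⟩` for all smooth vector fields `X, Y, Z`. -/
def IsMetric (cov : CovariantDerivative I E (TangentSpace I : M → Type _)) : Prop :=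
  ∀ ⦃X Y Z : Π x : M, TangentSpace I x⦄, CMDiff ∞ (T% X) → CMDiff ∞ (T% Y) → CMDiff ∞ (T% Z) →
    ∀ x, d% (fun y => inner ℝ (Y y) (Z y)) x (X x) =
      inner ℝ (cov Y x (X x)) (Z x) + inner ℝ (Y x) (cov Z x (X x))

theorem curv_skew [T2Space M] [SigmaCompactSpace M] [Nontrivial E]
    (cov : CovariantDerivative I E (TangentSpace I : M → Type _))
    [hc : CovariantDerivative.ContMDiffCovariantDerivative cov ∞]
    (hmet : IsMetric cov)
    {X Y Z W : Π x : M, TangentSpace I x} (hX : CMDiff ∞ (T% X)) (hY : CMDiff ∞ (T% Y))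
    (hZ : CMDiff ∞ (T% Z)) (hW : CMDiff ∞ (T% W)) (x : M) :
    inner ℝ (curv cov X Y Z x) (W x) = - inner ℝ (Z x) (curv cov X Y W x) := by
  have hf : CMDiff ∞ (fun y => inner ℝ (Z y) (W y)) := smooth_inner hZ hW
  have hder : ∀ {U : Π x : M, TangentSpace I x}, CMDiff ∞ (T% U) →
      (fun y => d% (fun y => inner ℝ (Z y) (W y)) y (U y)) =
      fun y => inner ℝ (nabla cov U Z y) (W y) + inner ℝ (Z y) (nabla cov U W y) := by
    intro U hU
    ext y
    exact hmet hU hZ hW y
  have hder1 : ∀ {A B U : Π x : M, TangentSpace I x}, CMDiff ∞ (T% A) → CMDiff ∞ (T% B) →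
      CMDiff ∞ (T% U) → ∀ y, d% (fun y => inner ℝ (A y) (B y)) y (U y) =
      inner ℝ (nabla cov U A y) (B y) + inner ℝ (A y) (nabla cov U B y) := by
    intro A B U hA hB hU y
    exact hmet hU hA hB y
  have hs : ∀ {U : Π x : M, TangentSpace I x}, CMDiff ∞ (T% U) →
      CMDiff ∞ (fun y => inner ℝ (nabla cov U Z y) (W y) + inner ℝ (Z y) (nabla cov U W y)) := by
    intro U hU
    exact (smooth_inner (smooth_nabla cov hU hZ) hW).add
      (smooth_inner hZ (smooth_nabla cov hU hW))
  have hcomm := comm_fun hf hX hY (by rw [hder hX]; exact hs hX) (by rw [hder hY]; exact hs hY) x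
  rw [hder hX, hder hY] at hcomm
  have hadd : ∀ {U V : Π x : M, TangentSpace I x}, CMDiff ∞ (T% U) → CMDiff ∞ (T% V) →
      d% (fun y => inner ℝ (nabla cov U Z y) (W y) + inner ℝ (Z y) (nabla cov U W y)) x (V x) =
      (inner ℝ (nabla cov V (nabla cov U Z) x) (W x) + inner ℝ (nabla cov U Z x) (nabla cov V W x)) +
      (inner ℝ (nabla cov V Z x) (nabla cov U W x) + inner ℝ (Z x) (nabla cov V (nabla cov U W) x)) := by
    intro U V hU hV
    have h1 : MDiffAt (fun y => inner ℝ (nabla cov U Z y) (W y)) x :=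
      ((smooth_inner (smooth_nabla cov hU hZ) hW) x).mdifferentiableAt (by simp)
    have h2 : MDiffAt (fun y => inner ℝ (Z y) (nabla cov U W y)) x :=
      ((smooth_inner hZ (smooth_nabla cov hU hW)) x).mdifferentiableAt (by simp)
    have h3 := mvfderiv_add h1 h2
    have h4 : (fun y => inner ℝ (nabla cov U Z y) (W y) + inner ℝ (Z y) (nabla cov U W y)) =
      (fun y => inner ℝ (nabla cov U Z y) (W y)) + (fun y => inner ℝ (Z y) (nabla cov U W y)) := rfl
    rw [h4, h3, add_apply]
    rw [hder1 (smooth_nabla cov hU hZ) hW hV x, hder1 hZ (smooth_nabla cov hU hW) hV x]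
  rw [hadd hY hX, hadd hX hY] at hcomm
  have hbr := hder1 hZ hW (smooth_bracket hX hY) x
  rw [hbr] at hcomm
  have e1 : inner ℝ (curv cov X Y Z x) (W x) = inner ℝ (nabla cov X (nabla cov Y Z) x) (W x) -
      inner ℝ (nabla cov Y (nabla cov X Z) x) (W x) -
      inner ℝ (nabla cov (mlieBracket I X Y) Z x) (W x) := by
    rw [← inner_sub_left, ← inner_sub_left]
    rfl
  have e2 : inner ℝ (Z x) (curv cov X Y W x) = inner ℝ (Z x) (nabla cov X (nabla cov Y W) x) -
      inner ℝ (Z x) (nabla cov Y (nabla cov X W) x) -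
      inner ℝ (Z x) (nabla cov (mlieBracket I X Y) W x) := by
    rw [← inner_sub_right, ← inner_sub_right]
    rfl
  rw [e1, e2]
  linarith

end Riem

/-- The connection is torsion-free: `∇_X Y - ∇_Y X = [X, Y]` for all smooth vector fields. -/
def IsTorsionFree (cov : CovariantDerivative I E (TangentSpace I : M → Type _)) : Prop :=
  ∀ ⦃X Y : Π x : M, TangentSpace I x⦄, CMDiff ∞ (T% X) → CMDiff ∞ (T% Y) →
    ∀ x, cov Y x (X x) - cov X x (Y x) = mlieBracket I X Y x

theorem curv_bianchi
    (cov : CovariantDerivative I E (TangentSpace I : M → Type _))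
    [hc : CovariantDerivative.ContMDiffCovariantDerivative cov ∞]
    (htors : IsTorsionFree cov)
    {X Y Z : Π x : M, TangentSpace I x} (hX : CMDiff ∞ (T% X)) (hY : CMDiff ∞ (T% Y))
    (hZ : CMDiff ∞ (T% Z)) (x : M) :
    curv cov X Y Z x + curv cov Y Z X x + curv cov Z X Y x = 0 := by
  have hmin : IsManifold I (minSmoothness ℝ 3) M := by
    simp only [minSmoothness_of_isRCLikeNormedField]
    infer_instance
  have ht' : ∀ {A B : Π x : M, TangentSpace I x}, CMDiff ∞ (T% A) → CMDiff ∞ (T% B) → 
      nabla cov A B = nabla cov B A + mlieBracket I A B := by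
    intro A B hA hB
    ext1 y
    have := htors hA hB y
    rw [Pi.add_apply, ← this]
    simp only [nabla]
    abel
  have hadd : ∀ {A B C : Π x : M, TangentSpace I x}, CMDiff ∞ (T% A) → CMDiff ∞ (T% B) → 
      cov (A + B) x (C x) = cov A x (C x) + cov B x (C x) := by
    intro A B C hA hB
    rw [cov.isCovariantDerivativeOnUniv.add (mdiffAt hA x) (mdiffAt hB x)]
    rfl
  have hbr : ∀ {A B : Π x : M, TangentSpace I x}, CMDiff ∞ (T% A) → CMDiff ∞ (T% B) → 
      cov B x (A x) = cov A x (B x) + mlieBracket I A B x := by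
    intro A B hA hB
    exact congrFun (ht' hA hB) x
  have e1 : cov (nabla cov Y Z) x (X x) = cov (nabla cov Z Y) x (X x) +
      cov (mlieBracket I Y Z) x (X x) := by
    rw [ht' hY hZ, hadd (smooth_nabla cov hZ hY) (smooth_bracket hY hZ)]
  have e2 : cov (nabla cov Z X) x (Y x) = cov (nabla cov X Z) x (Y x) +
      cov (mlieBracket I Z X) x (Y x) := by
    rw [ht' hZ hX, hadd (smooth_nabla cov hX hZ) (smooth_bracket hZ hX)]
  have e3 : cov (nabla cov X Y) x (Z x) = cov (nabla cov Y X) x (Z x) +
      cov (mlieBracket I X Y) x (Z x) := by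
    rw [ht' hX hY, hadd (smooth_nabla cov hY hX) (smooth_bracket hX hY)]
  have f1 : cov (mlieBracket I Y Z) x (X x) = cov X x (mlieBracket I Y Z x) +
      mlieBracket I X (mlieBracket I Y Z) x := hbr hX (smooth_bracket hY hZ)
  have f2 : cov (mlieBracket I Z X) x (Y x) = cov Y x (mlieBracket I Z X x) +
      mlieBracket I Y (mlieBracket I Z X) x := hbr hY (smooth_bracket hZ hX)
  have f3 : cov (mlieBracket I X Y) x (Z x) = cov Z x (mlieBracket I X Y x) +
      mlieBracket I Z (mlieBracket I X Y) x := hbr hZ (smooth_bracket hX hY)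
  have hJ := leibniz_identity_mlieBracket_apply (I := I) (U := X) (V := Y) (W := Z) (x := x)
    ((hX x).of_le (by simpa using two_le_infty)) ((hY x).of_le (by simpa using two_le_infty))
    ((hZ x).of_le (by simpa using two_le_infty))
  have g1 : mlieBracket I Y (mlieBracket I Z X) x = - mlieBracket I Y (mlieBracket I X Z) x := by
    rw [mlieBracket_swap (V := Z) (W := X)]
    have := mlieBracket_const_smul_right (I := I) (V := Y) (W := mlieBracket I X Z) (x := x)
      (c := (-1 : ℝ)) (mdiffAt (smooth_bracket hX hZ) x)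
    simpa using this
  have g2 : mlieBracket I Z (mlieBracket I X Y) x = - mlieBracket I (mlieBracket I X Y) Z x := by
    rw [mlieBracket_swap_apply]
  simp only [curv]
  rw [e1, e2, e3, f1, f2, f3, g1, g2, hJ]
  abel


theorem mdiff_nabla (cov : CovariantDerivative I E (TangentSpace I : M → Type _))
    [hc : CovariantDerivative.ContMDiffCovariantDerivative cov ∞]
    {X Z : Π x : M, TangentSpace I x} {x : M} (hX : MDiffAt (T% X) x) (hZ : CMDiff ∞ (T% Z)) :
    MDiffAt (T% (nabla cov X Z)) x := by
  have h1 := hc.contMDiff.contMDiff (σ := Z) (by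
    have : CMDiff ∞ (T% Z) := hZ
    exact this.contMDiffOn)
  rw [contMDiffOn_univ] at h1
  exact MDifferentiableAt.clm_bundle_apply ((h1 x).mdifferentiableAt (by simp)) hX

theorem tens1 (cov : CovariantDerivative I E (TangentSpace I : M → Type _))
    [hc : CovariantDerivative.ContMDiffCovariantDerivative cov ∞]
    {Y Z : Π x : M, TangentSpace I x} (hZ : CMDiff ∞ (T% Z)) (x : M) :
    TensorialAt I E (fun X => curv cov X Y Z x) x where
  smul {f X} hf hX := by
    have e1 : nabla cov (f • X) Z = f • nabla cov X Z := by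
      ext1 y
      exact map_smul (cov Z y) (f y) (X y)
    have e2 := cov.isCovariantDerivativeOnUniv.leibniz (mdiff_nabla cov hX hZ) hf
    have e3 : mlieBracket I (f • X) Y x = - d% f x (Y x) • (X x) + (f x) • mlieBracket I X Y x :=
      mlieBracket_smul_left hf hX
    simp only [curv]
    rw [e1, e3, e2]
    simp only [Pi.smul_apply', map_smul, map_add, add_apply, smul_apply,
      ContinuousLinearMap.smulRight_apply, nabla]
    module
  add {X X'} hX hX' := by
    have e1 : nabla cov (X + X') Z = nabla cov X Z + nabla cov X' Z := by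
      ext1 y
      exact map_add (cov Z y) (X y) (X' y)
    have e2 := cov.isCovariantDerivativeOnUniv.add (mdiff_nabla cov hX hZ)
      (mdiff_nabla cov hX' hZ)
    have e3 : mlieBracket I (X + X') Y x = mlieBracket I X Y x + mlieBracket I X' Y x :=
      mlieBracket_add_left hX hX'
    simp only [curv]
    rw [e1, e3, e2]
    simp only [Pi.add_apply, map_add, add_apply]
    abel


/-- A field of trilinear maps `T_x M × T_x M × T_x M → T_x M` on `M`. -/
def CurvField (I : ModelWithCorners ℝ E H) (M : Type*) [TopologicalSpace M]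
    [ChartedSpace H M] : Type _ :=
  Π x : M, TangentSpace I x →ₗ[ℝ] TangentSpace I x →ₗ[ℝ] TangentSpace I x →ₗ[ℝ] TangentSpace I x

section LC

variable [RiemannianBundle (fun x : M => TangentSpace I x)]
  [IsContMDiffRiemannianBundle I ∞ E (fun x : M => TangentSpace I x)]

/-- The Levi-Civita connection of the Riemannian metric: a smooth connection on the tangent bundle
which is metric and torsion-free. -/
structure IsLeviCivita (cov : CovariantDerivative I E (TangentSpace I : M → Type _)) : Prop where
  smooth : CovariantDerivative.ContMDiffCovariantDerivative cov ∞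
  metric : IsMetric cov
  torsionFree : IsTorsionFree cov

/-- `R` is the Riemann curvature tensor of the connection: a trilinear map on each tangent space
with `R(X,Y)Z = ∇_X ∇_Y Z - ∇_Y ∇_X Z - ∇_{[X,Y]} Z` for all smooth vector fields. -/
def IsRiemannTensor (cov : CovariantDerivative I E (TangentSpace I : M → Type _))
    (R : CurvField I M) : Prop :=
  ∀ ⦃X Y Z : Π x : M, TangentSpace I x⦄, CMDiff ∞ (T% X) → CMDiff ∞ (T% Y) → CMDiff ∞ (T% Z) →
    ∀ x, R x (X x) (Y x) (Z x) = curv cov X Y Z x

/-- `k`-nonnegative sectional curvature in dimension `n`: at every point and for every orthonormal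
basis, any `k` of the sectional curvatures `sec (e_i, e_j)`, `i < j`, have nonnegative sum. -/
def HasKNonnegSec (n : ℕ) (R : CurvField I M) (k : ℕ) : Prop :=
  ∀ x : M, Pointwise.KNonnegSec n (R x) k

/-- `K(R, Sym^p)` is positive semidefinite: `⟨K(R, Sym^p) φ, φ⟩ ≥ 0` at every point `x`, in every
orthonormal basis `e` of `T_x M`, for every symmetric `p`-tensor `φ` on `T_x M`. -/
def BochnerNonneg (n p : ℕ) (R : CurvField I M) : Prop :=
  ∀ (x : M) (e : OrthonormalBasis (Fin n) ℝ (TangentSpace I x))
    (φ : Pointwise.T p (TangentSpace I x)), Pointwise.IsSymm φ →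
    0 ≤ ∑ J : Fin p → Fin n,
      Pointwise.bochnerTerm (R x) e φ (fun a => e (J a)) * φ (fun a => e (J a))

variable [T2Space M] [SigmaCompactSpace M]

theorem isCurvatureTensor [Nontrivial E]
    {cov : CovariantDerivative I E (TangentSpace I : M → Type _)} (h : IsLeviCivita cov)
    {R : CurvField I M} (hR : IsRiemannTensor cov R) (x : M) :
    Pointwise.IsCurvatureTensor (R x) := by
  have hc := h.smooth
  constructor
  · intro u v w
    obtain ⟨X, hX, rfl⟩ := exists_smooth_field (I := I) x u
    obtain ⟨Y, hY, rfl⟩ := exists_smooth_field (I := I) x v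
    obtain ⟨Z, hZ, rfl⟩ := exists_smooth_field (I := I) x w
    rw [hR hX hY hZ, hR hY hX hZ]
    exact curv_antisymm cov X Y Z x
  · intro u v w z
    obtain ⟨X, hX, rfl⟩ := exists_smooth_field (I := I) x u
    obtain ⟨Y, hY, rfl⟩ := exists_smooth_field (I := I) x v
    obtain ⟨Z, hZ, rfl⟩ := exists_smooth_field (I := I) x w
    obtain ⟨W, hW, rfl⟩ := exists_smooth_field (I := I) x z
    rw [hR hX hY hZ, hR hX hY hW]
    exact curv_skew cov h.metric hX hY hZ hW x
  · intro u v w
    obtain ⟨X, hX, rfl⟩ := exists_smooth_field (I := I) x u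
    obtain ⟨Y, hY, rfl⟩ := exists_smooth_field (I := I) x v
    obtain ⟨Z, hZ, rfl⟩ := exists_smooth_field (I := I) x w
    rw [hR hX hY hZ, hR hY hZ hX, hR hZ hX hY]
    exact curv_bianchi cov h.torsionFree hX hY hZ x

/-- pair symmetry of the curvature on smooth vector fields -/
theorem curv_pair [Nontrivial E]
    {cov : CovariantDerivative I E (TangentSpace I : M → Type _)} (h : IsLeviCivita cov)
    {X Y Z W : Π x : M, TangentSpace I x} (hX : CMDiff ∞ (T% X)) (hY : CMDiff ∞ (T% Y))
    (hZ : CMDiff ∞ (T% Z)) (hW : CMDiff ∞ (T% W)) (x : M) :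
    inner ℝ (curv cov X Y Z x) (W x) = inner ℝ (curv cov Z W X x) (Y x) := by
  have hc := h.smooth
  have b1 := congrArg (fun t => inner ℝ t (W x)) (curv_bianchi cov h.torsionFree hX hY hZ x)
  have b2 := congrArg (fun t => inner ℝ t (X x)) (curv_bianchi cov h.torsionFree hY hZ hW x)
  have b3 := congrArg (fun t => inner ℝ t (Y x)) (curv_bianchi cov h.torsionFree hZ hW hX x)
  have b4 := congrArg (fun t => inner ℝ t (Z x)) (curv_bianchi cov h.torsionFree hW hX hY x)
  simp only [inner_add_left, inner_zero_left] at b1 b2 b3 b4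
  have a : ∀ A B C D : Π x : M, TangentSpace I x,
      inner ℝ (curv cov A B C x) (D x) = - inner ℝ (curv cov B A C x) (D x) := fun A B C D => by
    rw [curv_antisymm cov A B C, inner_neg_left]
  have s' : ∀ {A B C D : Π x : M, TangentSpace I x}, CMDiff ∞ (T% A) → CMDiff ∞ (T% B) →
      CMDiff ∞ (T% C) → CMDiff ∞ (T% D) →
      inner ℝ (curv cov A B C x) (D x) = - inner ℝ (curv cov A B D x) (C x) := by
    intro A B C D hA hB hC hD
    rw [curv_skew cov h.metric hA hB hC hD x, real_inner_comm]
  have t1 := s' hX hY hZ hW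
  have t2 := s' hZ hW hX hY
  have t3 := s' hW hX hZ hY
  have t4 := s' hW hY hX hZ
  have t5 := a W Y X Z
  have t6 := a W Y Z X
  have e1 := s' hY hZ hX hW
  have e2 := s' hZ hX hY hW
  have e3 := a X Z Y W
  have e4 := s' hX hY hW hZ
  have e5 := s' hW hX hY hZ
  have e6 := s' hZ hW hY hX
  have e7 := s' hY hZ hW hX
  have e8 := a Y W Z X
  have e9 := s' hW hY hZ hX
  have e10 := s' hX hZ hW hY
  have e11 := s' hY hW hX hZ
  have e12 := a X Z W Y
  have e13 := s' hZ hX hW hY
  have e14 := a Z X W Y
  linarith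

/-- a smooth vector field through a given tangent vector -/
noncomputable def ext (x : M) (v : TangentSpace I x) : Π x : M, TangentSpace I x :=
  (exists_smooth_field (I := I) x v).choose

theorem ext_smooth (x : M) (v : TangentSpace I x) : CMDiff ∞ (T% (ext x v)) :=
  (exists_smooth_field (I := I) x v).choose_spec.1

theorem ext_self (x : M) (v : TangentSpace I x) : ext x v x = v :=
  (exists_smooth_field (I := I) x v).choose_spec.2

theorem curv_congr1 [Nontrivial E]
    {cov : CovariantDerivative I E (TangentSpace I : M → Type _)} (h : IsLeviCivita cov)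
    {X X' Y Z : Π x : M, TangentSpace I x} (hX : CMDiff ∞ (T% X)) (hX' : CMDiff ∞ (T% X'))
    (hZ : CMDiff ∞ (T% Z)) {x : M} (hx : X x = X' x) :
    curv cov X Y Z x = curv cov X' Y Z x := by
  have hc := h.smooth
  exact (tens1 cov (Y := Y) hZ x).pointwise (mdiffAt hX x) (mdiffAt hX' x) hx

theorem curv_congr [Nontrivial E]
    {cov : CovariantDerivative I E (TangentSpace I : M → Type _)} (h : IsLeviCivita cov)
    {X X' Y Y' Z Z' : Π x : M, TangentSpace I x} (hX : CMDiff ∞ (T% X)) (hX' : CMDiff ∞ (T% X'))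
    (hY : CMDiff ∞ (T% Y)) (hY' : CMDiff ∞ (T% Y'))
    (hZ : CMDiff ∞ (T% Z)) (hZ' : CMDiff ∞ (T% Z')) {x : M} (hx : X x = X' x)
    (hy : Y x = Y' x) (hz : Z x = Z' x) :
    curv cov X Y Z x = curv cov X' Y' Z' x := by
  rw [curv_congr1 h hX hX' hZ hx, curv_antisymm, curv_congr1 h hY hY' hZ hy, ← curv_antisymm]
  apply ext_inner_right ℝ
  intro w
  obtain ⟨W, hW, rfl⟩ := exists_smooth_field (I := I) x w
  rw [curv_pair h hX' hY' hZ hW, curv_pair h hX' hY' hZ' hW, curv_congr1 h hZ hZ' hX' hz]

/-- existence of the Riemann tensor -/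
theorem exists_riemann [Nontrivial E]
    {cov : CovariantDerivative I E (TangentSpace I : M → Type _)} (h : IsLeviCivita cov) :
    ∃ R : CurvField I M, IsRiemannTensor cov R := by
  have hc := h.smooth
  let Q : ∀ x : M, TangentSpace I x → TangentSpace I x → TangentSpace I x → TangentSpace I x :=
    fun x u v w => curv cov (ext x u) (ext x v) (ext x w) x
  have hsm := fun (x : M) (v : TangentSpace I x) => ext_smooth (I := I) x v
  have hadd : ∀ {A B : Π x : M, TangentSpace I x}, CMDiff ∞ (T% A) → CMDiff ∞ (T% B) →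
      CMDiff ∞ (T% (A + B)) := fun hA hB => ContMDiff.add_section hA hB
  have hsmul : ∀ (c : ℝ) {A : Π x : M, TangentSpace I x}, CMDiff ∞ (T% A) →
      CMDiff ∞ (T% ((fun _ : M => c) • A)) := fun c A hA =>
    ContMDiff.smul_section contMDiff_const hA
  have q1 : ∀ x u u' v w, Q x (u + u') v w = Q x u v w + Q x u' v w := by
    intro x u u' v w
    have t := (tens1 cov (Y := ext x v) (hsm x w) x).add (mdiffAt (hsm x u) x)
      (mdiffAt (hsm x u') x)
    have s := curv_congr1 h (Y := ext x v) (hsm x (u + u')) (hadd (hsm x u) (hsm x u')) (hsm x w)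
      (x := x) (by rw [Pi.add_apply, ext_self, ext_self, ext_self])
    exact s.trans t
  have q1s : ∀ x (c : ℝ) u v w, Q x (c • u) v w = c • Q x u v w := by
    intro x c u v w
    have t := (tens1 cov (Y := ext x v) (hsm x w) x).smul (f := fun _ => c)
      mdifferentiableAt_const (mdiffAt (hsm x u) x)
    have s := curv_congr1 h (Y := ext x v) (hsm x (c • u)) (hsmul c (hsm x u)) (hsm x w)
      (x := x) (by rw [Pi.smul_apply', ext_self, ext_self])
    exact s.trans t
  have qa : ∀ x u v w, Q x u v w = - Q x v u w := fun x u v w => curv_antisymm ..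
  have qp : ∀ x u v w z, inner ℝ (Q x u v w) z = inner ℝ (Q x w z u) v := by
    intro x u v w z
    have := curv_pair h (hsm x u) (hsm x v) (hsm x w) (hsm x z) x
    rwa [ext_self, ext_self] at this
  have q3 : ∀ x u v w w', Q x u v (w + w') = Q x u v w + Q x u v w' := by
    intro x u v w w'
    apply ext_inner_right ℝ
    intro z
    rw [inner_add_left, qp x u v (w + w') z, q1, inner_add_left, qp x u v w z, qp x u v w' z]
  have q3s : ∀ x (c : ℝ) u v w, Q x u v (c • w) = c • Q x u v w := by
    intro x c u v w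
    apply ext_inner_right ℝ
    intro z
    rw [inner_smul_left, qp x u v (c • w) z, q1s, inner_smul_left, qp x u v w z]
  refine ⟨fun x => LinearMap.mk₂ ℝ (fun u v =>
    { toFun := fun w => Q x u v w
      map_add' := fun w w' => q3 x u v w w'
      map_smul' := fun c w => q3s x c u v w }) ?_ ?_ ?_ ?_, ?_⟩
  · intro u u' v
    ext w
    exact q1 x u u' v w
  · intro c u v
    ext w
    exact q1s x c u v w
  · intro u v v'
    ext w
    change Q x u (v + v') w = Q x u v w + Q x u v' w
    rw [qa, q1, qa x u v, qa x u v']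
    abel
  · intro c u v
    ext w
    change Q x u (c • v) w = c • Q x u v w
    rw [qa, q1s, qa x u v, smul_neg]
  · intro X Y Z hX hY hZ x
    change Q x (X x) (Y x) (Z x) = _
    exact curv_congr h (hsm x _) hX (hsm x _) hY (hsm x _) hZ (ext_self x _) (ext_self x _)
      (ext_self x _)

end LC

/-- Let `M` be a smooth Riemannian manifold of dimension `n`, `n ≥ 2`, and `p ≥ 3`.  If `M` has
`⌊(n + p - 2) / p⌋`-nonnegative sectional curvature then `⟨K(R, Sym^p) φ, φ⟩ ≥ 0` for every
symmetric `p`-tensor `φ` at every point. -/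
theorem result {E : Type*} [NormedAddCommGroup E] [NormedSpace ℝ E] [FiniteDimensional ℝ E]
    {H : Type*} [TopologicalSpace H] {I : ModelWithCorners ℝ E H}
    {M : Type*} [TopologicalSpace M] [ChartedSpace H M] [IsManifold I ∞ M]
    [T2Space M] [SigmaCompactSpace M]
    [RiemannianBundle (fun x : M => TangentSpace I x)]
    [IsContMDiffRiemannianBundle I ∞ E (fun x : M => TangentSpace I x)]
    (n p : ℕ) (hdim : Module.finrank ℝ E = n) (hn : 2 ≤ n) (hp : 3 ≤ p)
    (cov : CovariantDerivative I E (TangentSpace I : M → Type _)) (hcov : IsLeviCivita cov)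
    (R : CurvField I M) (hR : IsRiemannTensor cov R)
    (hsec : HasKNonnegSec n R ((n + p - 2) / p)) :
    BochnerNonneg n p R := by
  have : Nontrivial E := Module.nontrivial_of_finrank_pos (R := ℝ) (by omega)
  intro x e φ hφ
  exact Pointwise.result n p hn hp (R x) (isCurvatureTensor hcov hR x) (hsec x) e φ hφ

end Pool.Agent.Results.MP_b296c2_gt.Riemannian
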